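import Pool.Agent.MP_b00c97_gt.Mod.Nmr
import Pool.Agent.MP_b00c97_gt.Mod.Q1
import Pool.Agent.MP_b00c97_gt.RN.Defs

/-! Uniform definability of the vocabulary of Q1. -/

set_option autoImplicit false
set_option linter.unusedVariables false
set_option linter.unusedSectionVars false
set_option linter.unreachableTactic false
set_option linter.unusedTactic false

namespace Pool.Agent.MP_b00c97_gt.FO

open Filter MeasureTheory Pool.Agent.BVM Pool.Agent.BVM.BName Pool.Agent.SetModel
  Pool.Agent.MP63050e Pool.Agent.MP7e7dde Pool.Agent.MP9096b7 Pool.Agent.MP_b00c97_gt.Mod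

universe v

section bp

variable {B : Type} [CompleteBooleanAlgebra B] {J : Type*} {H : J → Ult B} {Γ : Type v}
  [BSet B Γ]

variable {f1 f2 f3 f4 f5 f6 f7 f8 : Γ → BName B}

theorem bp_isGrp (h1 : BTerm f1) (h2 : BTerm f2) (h3 : BTerm f3) :
    BPred H (fun j γ => IsGrp (E (H j)) (Mdl.mk _ (f1 γ)) (Mdl.mk _ (f2 γ)) (Mdl.mk _ (f3 γ))) := by
  unfold IsGrp
  repeat' first
    | exact BMap.id
    | apply BMap.fst
    | apply BMap.snd
    | apply BTerm.cmp h1
    | apply BTerm.cmp h2
    | apply BTerm.cmp h3
    | exact BTerm.const _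
    | apply bterm_opair
    | apply BTerm.of
    | apply BPred.mem
    | apply BPred.eq
    | apply bp_has2
    | apply bp_has3
    | apply bp_has4
    | apply bp_isTuple3
    | apply bp_eq_pr
    | apply bp_isPair
    | apply bp_isUPair
    | apply bp_isFun
    | apply bp_injects
    | apply bp_leN
    | apply bp_sub
    | apply bp_isFin
    | apply bp_isTop
    | apply BPred.not
    | apply BPred.and
    | apply BPred.or
    | apply BPred.iff
    | apply BPred.imp
    | refine BPred.ex ?_
    | refine BPred.all ?_
    | exact BPred.const _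

theorem bp_isAbel (h1 : BTerm f1) (h2 : BTerm f2) :
    BPred H (fun j γ => IsAbel (E (H j)) (Mdl.mk _ (f1 γ)) (Mdl.mk _ (f2 γ))) := by
  unfold IsAbel
  repeat' first
    | exact BMap.id
    | apply BMap.fst
    | apply BMap.snd
    | apply BTerm.cmp h1
    | apply BTerm.cmp h2
    | exact BTerm.const _
    | apply bterm_opair
    | apply BTerm.of
    | apply BPred.mem
    | apply BPred.eq
    | apply bp_has2
    | apply bp_has3
    | apply bp_has4
    | apply bp_isTuple3
    | apply bp_eq_pr
    | apply bp_isPair
    | apply bp_isUPair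
    | apply bp_isFun
    | apply bp_injects
    | apply bp_leN
    | apply bp_sub
    | apply bp_isFin
    | apply bp_isTop
    | apply bp_isGrp
    | apply BPred.not
    | apply BPred.and
    | apply BPred.or
    | apply BPred.iff
    | apply BPred.imp
    | refine BPred.ex ?_
    | refine BPred.all ?_
    | exact BPred.const _

theorem bp_isTopGrp (h1 : BTerm f1) (h2 : BTerm f2) (h3 : BTerm f3) (h4 : BTerm f4) :
    BPred H (fun j γ => IsTopGrp (E (H j)) (Mdl.mk _ (f1 γ)) (Mdl.mk _ (f2 γ)) (Mdl.mk _ (f3 γ)) (Mdl.mk _ (f4 γ))) := by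
  unfold IsTopGrp
  repeat' first
    | exact BMap.id
    | apply BMap.fst
    | apply BMap.snd
    | apply BTerm.cmp h1
    | apply BTerm.cmp h2
    | apply BTerm.cmp h3
    | apply BTerm.cmp h4
    | exact BTerm.const _
    | apply bterm_opair
    | apply BTerm.of
    | apply BPred.mem
    | apply BPred.eq
    | apply bp_has2
    | apply bp_has3
    | apply bp_has4
    | apply bp_isTuple3
    | apply bp_eq_pr
    | apply bp_isPair
    | apply bp_isUPair
    | apply bp_isFun
    | apply bp_injects
    | apply bp_leN
    | apply bp_sub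
    | apply bp_isFin
    | apply bp_isTop
    | apply bp_isGrp
    | apply bp_isAbel
    | apply BPred.not
    | apply BPred.and
    | apply BPred.or
    | apply BPred.iff
    | apply BPred.imp
    | refine BPred.ex ?_
    | refine BPred.all ?_
    | exact BPred.const _

theorem bp_isNbhd (h1 : BTerm f1) (h2 : BTerm f2) (h3 : BTerm f3) (h4 : BTerm f4) :
    BPred H (fun j γ => IsNbhd (E (H j)) (Mdl.mk _ (f1 γ)) (Mdl.mk _ (f2 γ)) (Mdl.mk _ (f3 γ)) (Mdl.mk _ (f4 γ))) := by
  unfold IsNbhd
  repeat' first
    | exact BMap.id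
    | apply BMap.fst
    | apply BMap.snd
    | apply BTerm.cmp h1
    | apply BTerm.cmp h2
    | apply BTerm.cmp h3
    | apply BTerm.cmp h4
    | exact BTerm.const _
    | apply bterm_opair
    | apply BTerm.of
    | apply BPred.mem
    | apply BPred.eq
    | apply bp_has2
    | apply bp_has3
    | apply bp_has4
    | apply bp_isTuple3
    | apply bp_eq_pr
    | apply bp_isPair
    | apply bp_isUPair
    | apply bp_isFun
    | apply bp_injects
    | apply bp_leN
    | apply bp_sub
    | apply bp_isFin
    | apply bp_isTop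
    | apply bp_isGrp
    | apply bp_isAbel
    | apply bp_isTopGrp
    | apply BPred.not
    | apply BPred.and
    | apply BPred.or
    | apply BPred.iff
    | apply BPred.imp
    | refine BPred.ex ?_
    | refine BPred.all ?_
    | exact BPred.const _

theorem bp_isFinSub (h1 : BTerm f1) (h2 : BTerm f2) (h3 : BTerm f3) :
    BPred H (fun j γ => IsFinSub (E (H j)) (Mdl.mk _ (f1 γ)) (Mdl.mk _ (f2 γ)) (Mdl.mk _ (f3 γ))) := by
  unfold IsFinSub
  repeat' first
    | exact BMap.id
    | apply BMap.fst
    | apply BMap.snd
    | apply BTerm.cmp h1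
    | apply BTerm.cmp h2
    | apply BTerm.cmp h3
    | exact BTerm.const _
    | apply bterm_opair
    | apply BTerm.of
    | apply BPred.mem
    | apply BPred.eq
    | apply bp_has2
    | apply bp_has3
    | apply bp_has4
    | apply bp_isTuple3
    | apply bp_eq_pr
    | apply bp_isPair
    | apply bp_isUPair
    | apply bp_isFun
    | apply bp_injects
    | apply bp_leN
    | apply bp_sub
    | apply bp_isFin
    | apply bp_isTop
    | apply bp_isGrp
    | apply bp_isAbel
    | apply bp_isTopGrp
    | apply bp_isNbhd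
    | apply BPred.not
    | apply BPred.and
    | apply BPred.or
    | apply BPred.iff
    | apply BPred.imp
    | refine BPred.ex ?_
    | refine BPred.all ?_
    | exact BPred.const _

theorem bp_inProd (h1 : BTerm f1) (h2 : BTerm f2) (h3 : BTerm f3) (h4 : BTerm f4) :
    BPred H (fun j γ => InProd (E (H j)) (Mdl.mk _ (f1 γ)) (Mdl.mk _ (f2 γ)) (Mdl.mk _ (f3 γ)) (Mdl.mk _ (f4 γ))) := by
  unfold InProd
  repeat' first
    | exact BMap.id
    | apply BMap.fst
    | apply BMap.snd
    | apply BTerm.cmp h1
    | apply BTerm.cmp h2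
    | apply BTerm.cmp h3
    | apply BTerm.cmp h4
    | exact BTerm.const _
    | apply bterm_opair
    | apply BTerm.of
    | apply BPred.mem
    | apply BPred.eq
    | apply bp_has2
    | apply bp_has3
    | apply bp_has4
    | apply bp_isTuple3
    | apply bp_eq_pr
    | apply bp_isPair
    | apply bp_isUPair
    | apply bp_isFun
    | apply bp_injects
    | apply bp_leN
    | apply bp_sub
    | apply bp_isFin
    | apply bp_isTop
    | apply bp_isGrp
    | apply bp_isAbel
    | apply bp_isTopGrp
    | apply bp_isNbhd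
    | apply bp_isFinSub
    | apply BPred.not
    | apply BPred.and
    | apply BPred.or
    | apply BPred.iff
    | apply BPred.imp
    | refine BPred.ex ?_
    | refine BPred.all ?_
    | exact BPred.const _

theorem bp_isSeqNb (h1 : BTerm f1) (h2 : BTerm f2) (h3 : BTerm f3) (h4 : BTerm f4) (h5 : BTerm f5) :
    BPred H (fun j γ => IsSeqOf (E (H j)) (Mdl.mk _ (f1 γ))
      (IsNbhd (E (H j)) (Mdl.mk _ (f2 γ)) (Mdl.mk _ (f3 γ)) (Mdl.mk _ (f4 γ))) (Mdl.mk _ (f5 γ))) := by
  unfold IsSeqOf
  repeat' first
    | exact BMap.id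
    | apply BMap.fst
    | apply BMap.snd
    | apply BTerm.cmp h1
    | apply BTerm.cmp h2
    | apply BTerm.cmp h3
    | apply BTerm.cmp h4
    | apply BTerm.cmp h5
    | exact BTerm.const _
    | apply bterm_opair
    | apply BTerm.of
    | apply BPred.mem
    | apply BPred.eq
    | apply bp_has2
    | apply bp_has3
    | apply bp_has4
    | apply bp_isTuple3
    | apply bp_eq_pr
    | apply bp_isPair
    | apply bp_isUPair
    | apply bp_isFun
    | apply bp_injects
    | apply bp_leN
    | apply bp_sub
    | apply bp_isFin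
    | apply bp_isTop
    | apply bp_isGrp
    | apply bp_isAbel
    | apply bp_isTopGrp
    | apply bp_isNbhd
    | apply bp_isFinSub
    | apply bp_inProd
    | apply BPred.not
    | apply BPred.and
    | apply BPred.or
    | apply BPred.iff
    | apply BPred.imp
    | refine BPred.ex ?_
    | refine BPred.all ?_
    | exact BPred.const _

theorem bp_isSeqFs (h1 : BTerm f1) (h2 : BTerm f2) (h3 : BTerm f3) (h4 : BTerm f4) :
    BPred H (fun j γ => IsSeqOf (E (H j)) (Mdl.mk _ (f1 γ))
      (IsFinSub (E (H j)) (Mdl.mk _ (f2 γ)) (Mdl.mk _ (f3 γ))) (Mdl.mk _ (f4 γ))) := by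
  unfold IsSeqOf
  repeat' first
    | exact BMap.id
    | apply BMap.fst
    | apply BMap.snd
    | apply BTerm.cmp h1
    | apply BTerm.cmp h2
    | apply BTerm.cmp h3
    | apply BTerm.cmp h4
    | exact BTerm.const _
    | apply bterm_opair
    | apply BTerm.of
    | apply BPred.mem
    | apply BPred.eq
    | apply bp_has2
    | apply bp_has3
    | apply bp_has4
    | apply bp_isTuple3
    | apply bp_eq_pr
    | apply bp_isPair
    | apply bp_isUPair
    | apply bp_isFun
    | apply bp_injects
    | apply bp_leN
    | apply bp_sub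
    | apply bp_isFin
    | apply bp_isTop
    | apply bp_isGrp
    | apply bp_isAbel
    | apply bp_isTopGrp
    | apply bp_isNbhd
    | apply bp_isFinSub
    | apply bp_inProd
    | apply bp_isSeqNb
    | apply BPred.not
    | apply BPred.and
    | apply BPred.or
    | apply BPred.iff
    | apply BPred.imp
    | refine BPred.ex ?_
    | refine BPred.all ?_
    | exact BPred.const _

theorem bp_isOBdd (h1 : BTerm f1) (h2 : BTerm f2) (h3 : BTerm f3) (h4 : BTerm f4) (h5 : BTerm f5) :
    BPred H (fun j γ => IsOBdd (E (H j)) (Mdl.mk _ (f1 γ)) (Mdl.mk _ (f2 γ)) (Mdl.mk _ (f3 γ)) (Mdl.mk _ (f4 γ)) (Mdl.mk _ (f5 γ))) := by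
  unfold IsOBdd
  repeat' first
    | exact BMap.id
    | apply BMap.fst
    | apply BMap.snd
    | apply BTerm.cmp h1
    | apply BTerm.cmp h2
    | apply BTerm.cmp h3
    | apply BTerm.cmp h4
    | apply BTerm.cmp h5
    | exact BTerm.const _
    | apply bterm_opair
    | apply BTerm.of
    | apply BPred.mem
    | apply BPred.eq
    | apply bp_has2
    | apply bp_has3
    | apply bp_has4
    | apply bp_isTuple3
    | apply bp_eq_pr
    | apply bp_isPair
    | apply bp_isUPair
    | apply bp_isFun
    | apply bp_injects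
    | apply bp_leN
    | apply bp_sub
    | apply bp_isFin
    | apply bp_isTop
    | apply bp_isGrp
    | apply bp_isAbel
    | apply bp_isTopGrp
    | apply bp_isNbhd
    | apply bp_isFinSub
    | apply bp_inProd
    | apply bp_isSeqNb
    | apply bp_isSeqFs
    | apply BPred.not
    | apply BPred.and
    | apply BPred.or
    | apply BPred.iff
    | apply BPred.imp
    | refine BPred.ex ?_
    | refine BPred.all ?_
    | exact BPred.const _

theorem bp_isRestr (h1 : BTerm f1) (h2 : BTerm f2) (h3 : BTerm f3) :
    BPred H (fun j γ => IsRestr (E (H j)) (Mdl.mk _ (f1 γ)) (Mdl.mk _ (f2 γ)) (Mdl.mk _ (f3 γ))) := by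
  unfold IsRestr
  repeat' first
    | exact BMap.id
    | apply BMap.fst
    | apply BMap.snd
    | apply BTerm.cmp h1
    | apply BTerm.cmp h2
    | apply BTerm.cmp h3
    | exact BTerm.const _
    | apply bterm_opair
    | apply BTerm.of
    | apply BPred.mem
    | apply BPred.eq
    | apply bp_has2
    | apply bp_has3
    | apply bp_has4
    | apply bp_isTuple3
    | apply bp_eq_pr
    | apply bp_isPair
    | apply bp_isUPair
    | apply bp_isFun
    | apply bp_injects
    | apply bp_leN
    | apply bp_sub
    | apply bp_isFin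
    | apply bp_isTop
    | apply bp_isGrp
    | apply bp_isAbel
    | apply bp_isTopGrp
    | apply bp_isNbhd
    | apply bp_isFinSub
    | apply bp_inProd
    | apply bp_isSeqNb
    | apply bp_isSeqFs
    | apply bp_isOBdd
    | apply BPred.not
    | apply BPred.and
    | apply BPred.or
    | apply BPred.iff
    | apply BPred.imp
    | refine BPred.ex ?_
    | refine BPred.all ?_
    | exact BPred.const _

theorem bp_isRule (h1 : BTerm f1) (h2 : BTerm f2) (h3 : BTerm f3) (h4 : BTerm f4) (h5 : BTerm f5) :
    BPred H (fun j γ => IsRule (E (H j)) (Mdl.mk _ (f1 γ)) (Mdl.mk _ (f2 γ)) (Mdl.mk _ (f3 γ)) (Mdl.mk _ (f4 γ)) (Mdl.mk _ (f5 γ))) := by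
  unfold IsRule
  repeat' first
    | exact BMap.id
    | apply BMap.fst
    | apply BMap.snd
    | apply BTerm.cmp h1
    | apply BTerm.cmp h2
    | apply BTerm.cmp h3
    | apply BTerm.cmp h4
    | apply BTerm.cmp h5
    | exact BTerm.const _
    | apply bterm_opair
    | apply BTerm.of
    | apply BPred.mem
    | apply BPred.eq
    | apply bp_has2
    | apply bp_has3
    | apply bp_has4
    | apply bp_isTuple3
    | apply bp_eq_pr
    | apply bp_isPair
    | apply bp_isUPair
    | apply bp_isFun
    | apply bp_injects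
    | apply bp_leN
    | apply bp_sub
    | apply bp_isFin
    | apply bp_isTop
    | apply bp_isGrp
    | apply bp_isAbel
    | apply bp_isTopGrp
    | apply bp_isNbhd
    | apply bp_isFinSub
    | apply bp_inProd
    | apply bp_isSeqNb
    | apply bp_isSeqFs
    | apply bp_isOBdd
    | apply bp_isRestr
    | apply BPred.not
    | apply BPred.and
    | apply BPred.or
    | apply BPred.iff
    | apply BPred.imp
    | refine BPred.ex ?_
    | refine BPred.all ?_
    | exact BPred.const _

theorem bp_iWins (h1 : BTerm f1) (h2 : BTerm f2) (h3 : BTerm f3) (h4 : BTerm f4) (h5 : BTerm f5) :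
    BPred H (fun j γ => IWins (E (H j)) (Mdl.mk _ (f1 γ)) (Mdl.mk _ (f2 γ)) (Mdl.mk _ (f3 γ)) (Mdl.mk _ (f4 γ)) (Mdl.mk _ (f5 γ))) := by
  unfold IWins
  repeat' first
    | exact BMap.id
    | apply BMap.fst
    | apply BMap.snd
    | apply BTerm.cmp h1
    | apply BTerm.cmp h2
    | apply BTerm.cmp h3
    | apply BTerm.cmp h4
    | apply BTerm.cmp h5
    | exact BTerm.const _
    | apply bterm_opair
    | apply BTerm.of
    | apply BPred.mem
    | apply BPred.eq
    | apply bp_has2
    | apply bp_has3
    | apply bp_has4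
    | apply bp_isTuple3
    | apply bp_eq_pr
    | apply bp_isPair
    | apply bp_isUPair
    | apply bp_isFun
    | apply bp_injects
    | apply bp_leN
    | apply bp_sub
    | apply bp_isFin
    | apply bp_isTop
    | apply bp_isGrp
    | apply bp_isAbel
    | apply bp_isTopGrp
    | apply bp_isNbhd
    | apply bp_isFinSub
    | apply bp_inProd
    | apply bp_isSeqNb
    | apply bp_isSeqFs
    | apply bp_isOBdd
    | apply bp_isRestr
    | apply bp_isRule
    | apply BPred.not
    | apply BPred.and
    | apply BPred.or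
    | apply BPred.iff
    | apply BPred.imp
    | refine BPred.ex ?_
    | refine BPred.all ?_
    | exact BPred.const _

theorem bp_isUMet (h1 : BTerm f1) (h2 : BTerm f2) (h3 : BTerm f3) (h4 : BTerm f4) :
    BPred H (fun j γ => IsUMet (E (H j)) (Mdl.mk _ (f1 γ)) (Mdl.mk _ (f2 γ)) (Mdl.mk _ (f3 γ)) (Mdl.mk _ (f4 γ))) := by
  unfold IsUMet
  repeat' first
    | exact BMap.id
    | apply BMap.fst
    | apply BMap.snd
    | apply BTerm.cmp h1
    | apply BTerm.cmp h2
    | apply BTerm.cmp h3
    | apply BTerm.cmp h4
    | exact BTerm.const _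
    | apply bterm_opair
    | apply BTerm.of
    | apply BPred.mem
    | apply BPred.eq
    | apply bp_has2
    | apply bp_has3
    | apply bp_has4
    | apply bp_isTuple3
    | apply bp_eq_pr
    | apply bp_isPair
    | apply bp_isUPair
    | apply bp_isFun
    | apply bp_injects
    | apply bp_leN
    | apply bp_sub
    | apply bp_isFin
    | apply bp_isTop
    | apply bp_isGrp
    | apply bp_isAbel
    | apply bp_isTopGrp
    | apply bp_isNbhd
    | apply bp_isFinSub
    | apply bp_inProd
    | apply bp_isSeqNb
    | apply bp_isSeqFs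
    | apply bp_isOBdd
    | apply bp_isRestr
    | apply bp_isRule
    | apply bp_iWins
    | apply BPred.not
    | apply BPred.and
    | apply BPred.or
    | apply BPred.iff
    | apply BPred.imp
    | refine BPred.ex ?_
    | refine BPred.all ?_
    | exact BPred.const _

end bp

end Pool.Agent.MP_b00c97_gt.FO
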