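import Pool.Agent.MP_b00c97_gt.FO.Bp
import Pool.Agent.MP_b00c97_gt.RN.Defs

/-! Names for the elements of a group of the Boolean valued model, names for sequences and for
finite sets. -/

set_option autoImplicit false
set_option linter.unusedVariables false
set_option linter.unusedSectionVars false

namespace Pool.Agent.MP_b00c97_gt.FO

open Filter MeasureTheory Pool.Agent.BVM Pool.Agent.BVM.BName Pool.Agent.SetModel
  Pool.Agent.MP63050e Pool.Agent.MP7e7dde Pool.Agent.MP9096b7 Pool.Agent.MP_b00c97_gt.Mod
  Pool.Agent.MP_b00c97_gt.RN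

universe u v

variable {B : Type} [CompleteBooleanAlgebra B]

/-- `Γ` is a group of names for the elements of the group `(G, m)` with neutral element `e`, on the
event `c`. -/
structure GN (G m e : BName B) (c : B) (Γ : Type 1) [Group Γ] where
  /-- the name of an element of `Γ` -/
  nam : Γ → BName B
  mem : ∀ g (h : Ult B), h.V c → E h (Mdl.mk h (nam g)) (Mdl.mk h G)
  mul : ∀ g g' (h : Ult B), h.V c →
    Has (E h) (Mdl.mk h m) [Mdl.mk h (nam g), Mdl.mk h (nam g'), Mdl.mk h (nam (g * g'))]
  one : ∀ h : Ult B, h.V c → Mdl.mk h (nam 1) = Mdl.mk h e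
  surj : ∀ x : BName B, (∀ h : Ult B, h.V c → E h (Mdl.mk h x) (Mdl.mk h G)) →
    ∃ g, ∀ h : Ult B, h.V c → Mdl.mk h (nam g) = Mdl.mk h x

/-- The name of the sequence `x`. -/
noncomputable def sqN (x : ℕ → BName B) : BName B :=
  BName.mk ℕ (fun i => opair (vN i) (x i)) (fun _ => ⊤)

/-- The name of the finite sequence `l`. -/
noncomputable def sgL (l : List (BName B)) : BName B :=
  BName.mk (Fin l.length) (fun i => opair (vN (i : ℕ)) (l.get i)) (fun _ => ⊤)

/-- The name of the finite set `l`. -/
noncomputable def fsN (l : List (BName B)) : BName B :=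
  BName.mk (Fin l.length) (fun i => l.get i) (fun _ => ⊤)

/-- The name of the random finite set `{d j : j < κ}`. -/
noncomputable def rfN (d : ℕ → BName B) (κ : Ult B → ℕ) : BName B :=
  BName.mk ℕ d (fun j => bv {ω | j < κ ω})

end Pool.Agent.MP_b00c97_gt.FO
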