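import Pool.Agent.MP_b00c97_gt.FO.Defs

/-!
# MP_b00c97_gt, part FO, block FB: enumeration of the finite sets of the model
-/

set_option autoImplicit false

namespace Pool.Agent.MP_b00c97_gt.FO

open Filter MeasureTheory Pool.Agent.BVM Pool.Agent.BVM.BName Pool.Agent.SetModel
  Pool.Agent.MP63050e Pool.Agent.MP7e7dde Pool.Agent.MP9096b7 Pool.Agent.MP_b00c97_gt.Mod
  Pool.Agent.MP_b00c97_gt.RN

universe u v

variable {B : Type} [CompleteBooleanAlgebra B]

theorem exists_enum_fin (f e : BName B) (c : B)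
    (hf : ∀ h : Ult B, h.V c → IsFin (E h) (wM h) (Mdl.mk h f)) :
    ∃ (d : ℕ → BName B) (κ : Ult B → ℕ), Measurable[genM B] κ ∧
      (∀ j (h : Ult B), h.V c → E h (Mdl.mk h (d j)) (Mdl.mk h f) ∨
        Mdl.mk h (d j) = Mdl.mk h e) ∧
      ∀ᶠ ω in genN B, ω.V c → ∀ z, E ω z (Mdl.mk ω f) → ∃ j < κ ω, z = Mdl.mk ω (d j) := by
  classical
  obtain ⟨ν, hν⟩ := exists_wit (B := B)
    (P := fun h z => E h z (wM h) ∧ Injects (E h) (Mdl.mk h f) z) (by (repeat' first | exact BMap.id | apply BMap.fst | apply BMap.snd | exact BTerm.const _ | apply bterm_opair | apply BTerm.of | apply BPred.mem | apply BPred.eq | apply bp_has2 | apply bp_has3 | apply bp_has4 | apply bp_isTuple3 | apply bp_eq_pr | apply bp_isPair | apply bp_isUPair | apply bp_isFun | apply bp_injects | apply bp_leN | apply bp_sub | apply bp_isFin | apply bp_isTop | apply bp_isGrp | apply bp_isAbel | apply bp_isTopGrp | apply bp_isNbhd | apply bp_isFinSub | apply bp_inProd | apply bp_isSeqNb | apply bp_isSeqFs | apply bp_isOBdd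 | apply bp_isRestr | apply bp_isRule | apply bp_iWins | apply bp_isUMet | apply BPred.not | apply BPred.and | apply BPred.or | apply BPred.iff | apply BPred.imp | refine BPred.ex ?_ | refine BPred.all ?_ | exact BPred.const _))
    (Q := fun h => h.V c) (fun h hc => hf h hc)
  obtain ⟨φ, hφ⟩ := exists_wit (B := B)
    (P := fun h g => IsFun (E h) g (Mdl.mk h f) (Mdl.mk h ν) ∧
      ∀ a a' b, E h a (Mdl.mk h f) → E h a' (Mdl.mk h f) → Has (E h) g [a, b] →
        Has (E h) g [a', b] → a = a') (by (repeat' first | exact BMap.id | apply BMap.fst | apply BMap.snd | exact BTerm.const _ | apply bterm_opair | apply BTerm.of | apply BPred.mem | apply BPred.eq | apply bp_has2 | apply bp_has3 | apply bp_has4 | apply bp_isTuple3 | apply bp_eq_pr | apply bp_isPair | apply bp_isUPair | apply bp_isFun | apply bp_injects | apply bp_leN | apply bp_sub | apply bp_isFin | apply bp_isTop | apply bp_isGrp | apply bp_isAbel | apply bp_isTopGrp | apply bp_isNbhd | apply bp_isFinSub | apply bp_inProd | apply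 bp_isSeqNb | apply bp_isSeqFs | apply bp_isOBdd | apply bp_isRestr | apply bp_isRule | apply bp_iWins | apply bp_isUMet | apply BPred.not | apply BPred.and | apply BPred.or | apply BPred.iff | apply BPred.imp | refine BPred.ex ?_ | refine BPred.all ?_ | exact BPred.const _))
    (Q := fun h => h.V c) (fun h hc => (hν h hc).2)
  have hd : ∀ j : ℕ, ∃ z : BName B, ∀ h : Ult B, True →
      ((E h (Mdl.mk h z) (Mdl.mk h f) ∧ Has (E h) (Mdl.mk h φ) [Mdl.mk h z, nM h j]) ∨
        ((¬ ∃ z', E h z' (Mdl.mk h f) ∧ Has (E h) (Mdl.mk h φ) [z', nM h j]) ∧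
          Mdl.mk h z = Mdl.mk h e)) := by
    intro j
    refine exists_wit (B := B)
      (P := fun h z => (E h z (Mdl.mk h f) ∧ Has (E h) (Mdl.mk h φ) [z, nM h j]) ∨
        ((¬ ∃ z', E h z' (Mdl.mk h f) ∧ Has (E h) (Mdl.mk h φ) [z', nM h j]) ∧
          z = Mdl.mk h e)) (by (repeat' first | exact BMap.id | apply BMap.fst | apply BMap.snd | exact BTerm.const _ | apply bterm_opair | apply BTerm.of | apply BPred.mem | apply BPred.eq | apply bp_has2 | apply bp_has3 | apply bp_has4 | apply bp_isTuple3 | apply bp_eq_pr | apply bp_isPair | apply bp_isUPair | apply bp_isFun | apply bp_injects | apply bp_leN | apply bp_sub | apply bp_isFin | apply bp_isTop | apply bp_isGrp | apply bp_isAbel | apply bp_isTopGrp | apply bp_isNbhd | apply bp_isFinSub | apply bp_inProd | apply bp_isSeqNb | apply bp_isSeqFs | apply bp_isOBdd | apply bp_isRestr | apply bp_isRule | apply bp_iWins | apply bp_isUMet | apply BPred.not | apply BPred.and | apply BPred.or | apply BPred.iff | apply BPred.imp | refine BPred.ex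 ?_ | refine BPred.all ?_ | exact BPred.const _)) (fun h _ => ?_)
    by_cases h1 : ∃ z', E h z' (Mdl.mk h f) ∧ Has (E h) (Mdl.mk h φ) [z', nM h j]
    · obtain ⟨z, hz⟩ := h1
      exact ⟨z, Or.inl hz⟩
    · exact ⟨Mdl.mk h e, Or.inr ⟨h1, rfl⟩⟩
  choose d hd using hd
  refine ⟨d, fun ω => lst (fun k => {ω : Ult B | Mdl.mk ω ν = nM ω k}) ω, ?_, ?_, ?_⟩
  · refine meas_lst fun k => meas_clop ?_
    exact BPred.clop (P := fun h (_ : PUnit.{1}) => Mdl.mk h ν = nM h k)
      (BPred.eq (BTerm.const _) (BTerm.const _)) PUnit.unit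
  · intro j h _
    rcases hd j h trivial with h1 | h1
    · exact Or.inl h1.1
    · exact Or.inr h1.2
  · filter_upwards [ae_exists_om (B := B) (P := fun h z => z = Mdl.mk h ν) (by (repeat' first | exact BMap.id | apply BMap.fst | apply BMap.snd | exact BTerm.const _ | apply bterm_opair | apply BTerm.of | apply BPred.mem | apply BPred.eq | apply bp_has2 | apply bp_has3 | apply bp_has4 | apply bp_isTuple3 | apply bp_eq_pr | apply bp_isPair | apply bp_isUPair | apply bp_isFun | apply bp_injects | apply bp_leN | apply bp_sub | apply bp_isFin | apply bp_isTop | apply bp_isGrp | apply bp_isAbel | apply bp_isTopGrp | apply bp_isNbhd | apply bp_isFinSub | apply bp_inProd | apply bp_isSeqNb | apply bp_isSeqFs | apply bp_isOBdd | apply bp_isRestr | apply bp_isRule | apply bp_iWins | apply bp_isUMet | apply BPred.not | apply BPred.and | apply BPred.or | apply BPred.iff | apply BPred.imp | refine BPred.ex ?_ | refine BPred.all ?_ | exact BPred.const _))] with ω h1 hc z hz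
    obtain ⟨k, hk⟩ := h1 ⟨_, (hν ω hc).1, rfl⟩
    have h2 : Mdl.mk ω ν = nM ω (lst (fun k => {ω : Ult B | Mdl.mk ω ν = nM ω k}) ω) :=
      lst_mem (T := fun k => {ω : Ult B | Mdl.mk ω ν = nM ω k}) ⟨k, hk.symm⟩
    obtain ⟨h3, h4⟩ := hφ ω hc
    obtain ⟨b, hb, -⟩ := h3.2 z hz
    have h5 := (isFun_has h3 hb).2
    rw [h2, E_nM_iff] at h5
    obtain ⟨j, hj, rfl⟩ := h5
    refine ⟨j, hj, ?_⟩
    rcases hd j ω trivial with h6 | h6
    · exact h4 _ _ _ hz h6.1 hb h6.2
    · exact absurd ⟨z, hz, hb⟩ h6.1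

end Pool.Agent.MP_b00c97_gt.FO
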