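import Pool.Agent.MP_b00c97_gt.FO.Defs

/-! Block FA: the group of names. -/

set_option autoImplicit false
set_option linter.unusedVariables false
set_option linter.unusedSectionVars false
set_option linter.unreachableTactic false
set_option linter.unusedTactic false

namespace Pool.Agent.MP_b00c97_gt.FO

open Filter MeasureTheory Pool.Agent.BVM Pool.Agent.BVM.BName Pool.Agent.SetModel
  Pool.Agent.MP63050e Pool.Agent.MP7e7dde Pool.Agent.MP9096b7 Pool.Agent.MP_b00c97_gt.Mod
  Pool.Agent.MP_b00c97_gt.RN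

universe u v

section pt

variable {M : Type u} {E : M → M → Prop} {G m e : M} (H : IsGrp E G m e)

/-- the product -/
noncomputable def gmul (x y : {z // E z G}) : {z // E z G} :=
  ⟨(H.1 x.1 y.1 x.2 y.2).choose, (H.1 x.1 y.1 x.2 y.2).choose_spec.1⟩

theorem has_gmul (x y : {z // E z G}) (z : M) :
    Has E m [x.1, y.1, z] ↔ z = (gmul H x y).1 :=
  (H.1 x.1 y.1 x.2 y.2).choose_spec.2 z

theorem gmul_eq {x y z : {z // E z G}} (h : Has E m [x.1, y.1, z.1]) : gmul H x y = z :=
  Subtype.ext ((has_gmul H x y z.1).1 h).symm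

/-- the inverse -/
noncomputable def ginv (x : {z // E z G}) : {z // E z G} :=
  ⟨(H.2.2.2.2 x.1 x.2).choose, (H.2.2.2.2 x.1 x.2).choose_spec.1⟩

theorem ginv_mul (x : {z // E z G}) : gmul H (ginv H x) x = ⟨e, H.2.2.1⟩ :=
  gmul_eq H (H.2.2.2.2 x.1 x.2).choose_spec.2.2

/-- The elements of a group of the model form a group. -/
@[reducible]
noncomputable def ggrp : Group {z // E z G} :=
  letI : Mul {z // E z G} := ⟨gmul H⟩
  letI : One {z // E z G} := ⟨⟨e, H.2.2.1⟩⟩
  letI : Inv {z // E z G} := ⟨ginv H⟩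
  Group.ofLeftAxioms
    (fun x y z => by
      change gmul H (gmul H x y) z = gmul H x (gmul H y z)
      obtain ⟨r, hr1, hr2⟩ := H.2.1 x.1 y.1 z.1 _ _ x.2 y.2 z.2
        ((has_gmul H x y _).2 rfl) ((has_gmul H y z _).2 rfl)
      have h1 := (has_gmul H (gmul H x y) z r).1 hr1
      have h2 := (has_gmul H x (gmul H y z) r).1 hr2
      exact Subtype.ext (h1.symm.trans h2))
    (fun x => gmul_eq H (H.2.2.2.1 x.1 x.2).1)
    (fun x => ginv_mul H x)

end pt

variable {B : Type} [CompleteBooleanAlgebra B]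

/-- the group over all ultrafilters -/
abbrev PG (G : BName B) (c : B) : Type 1 :=
  (h : {h : Ult B // h.V c}) → {z : Mdl h.1 // E h.1 z (Mdl.mk h.1 G)}

section

variable {G m e : BName B} {c : B}
  (H : ∀ h : Ult B, h.V c → IsGrp (E h) (Mdl.mk h G) (Mdl.mk h m) (Mdl.mk h e))

/-- its group structure -/
@[reducible]
noncomputable def pgrp : Group (PG G c) :=
  letI := fun h : {h : Ult B // h.V c} => ggrp (H h.1 h.2)
  Pi.group

/-- the sections which have a name -/
noncomputable def sgrp : @Subgroup (PG G c) (pgrp H) :=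
  letI := pgrp H
  { carrier := {f | ∃ x : BName B, ∀ h : {h : Ult B // h.V c}, (f h).1 = Mdl.mk h.1 x}
    one_mem' := ⟨e, fun h => rfl⟩
    mul_mem' := by
      rintro f g ⟨x, hx⟩ ⟨y, hy⟩
      obtain ⟨z, hz⟩ := exists_wit (P := fun h z => Has (E h) (Mdl.mk h m) [Mdl.mk h x, Mdl.mk h y, z])
        (by (repeat' first | exact BMap.id | apply BMap.fst | apply BMap.snd | exact BTerm.const _ | apply bterm_opair | apply BTerm.of | apply BPred.mem | apply BPred.eq | apply bp_has2 | apply bp_has3 | apply bp_has4 | apply bp_isTuple3 | apply bp_eq_pr | apply bp_isPair | apply bp_isUPair | apply bp_isFun | apply bp_injects | apply bp_leN | apply bp_sub | apply bp_isFin | apply bp_isTop | apply bp_isGrp | apply bp_isAbel | apply bp_isTopGrp | apply bp_isNbhd | apply bp_isFinSub | apply bp_inProd | apply bp_isSeqNb | apply bp_isSeqFs | apply bp_isOBdd | apply bp_isRestr | apply bp_isRule | apply bp_iWins | apply bp_isUMet | apply BPred.not | apply BPred.and | apply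 BPred.or | apply BPred.iff | apply BPred.imp | refine BPred.ex ?_ | refine BPred.all ?_ | exact BPred.const _)) (Q := fun h : Ult B => h.V c) (by
          intro h hc
          refine ⟨(gmul (H h hc) (f ⟨h, hc⟩) (g ⟨h, hc⟩)).1, ?_⟩
          rw [← hx ⟨h, hc⟩, ← hy ⟨h, hc⟩]
          exact (has_gmul (H h hc) _ _ _).2 rfl)
      refine ⟨z, fun h => ?_⟩
      have h1 := hz h.1 h.2
      rw [← hx h, ← hy h] at h1
      exact ((has_gmul (H h.1 h.2) _ _ _).1 h1).symm
    inv_mem' := by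
      rintro f ⟨x, hx⟩
      obtain ⟨z, hz⟩ := exists_wit (P := fun h z => E h z (Mdl.mk h G) ∧
          Has (E h) (Mdl.mk h m) [z, Mdl.mk h x, Mdl.mk h e])
        (by (repeat' first | exact BMap.id | apply BMap.fst | apply BMap.snd | exact BTerm.const _ | apply bterm_opair | apply BTerm.of | apply BPred.mem | apply BPred.eq | apply bp_has2 | apply bp_has3 | apply bp_has4 | apply bp_isTuple3 | apply bp_eq_pr | apply bp_isPair | apply bp_isUPair | apply bp_isFun | apply bp_injects | apply bp_leN | apply bp_sub | apply bp_isFin | apply bp_isTop | apply bp_isGrp | apply bp_isAbel | apply bp_isTopGrp | apply bp_isNbhd | apply bp_isFinSub | apply bp_inProd | apply bp_isSeqNb | apply bp_isSeqFs | apply bp_isOBdd | apply bp_isRestr | apply bp_isRule | apply bp_iWins | apply bp_isUMet | apply BPred.not | apply BPred.and | apply BPred.or | apply BPred.iff | apply BPred.imp | refine BPred.ex ?_ | refine BPred.all ?_ | exact BPred.const _)) (Q := fun h : Ult B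 => h.V c) (by
          intro h hc
          refine ⟨(ginv (H h hc) (f ⟨h, hc⟩)).1, (ginv (H h hc) (f ⟨h, hc⟩)).2, ?_⟩
          rw [← hx ⟨h, hc⟩, has_gmul (H h hc), ginv_mul])
      refine ⟨z, fun h => ?_⟩
      obtain ⟨h1, h2⟩ := hz h.1 h.2
      rw [← hx h] at h2
      letI := ggrp (H h.1 h.2)
      have h3 : (⟨_, h1⟩ : {z : Mdl h.1 // E h.1 z (Mdl.mk h.1 G)}) * f h = 1 :=
        gmul_eq (H h.1 h.2) (x := ⟨_, h1⟩) (y := f h) (z := ⟨_, (H h.1 h.2).2.2.1⟩) h2
      have h4 := eq_inv_of_mul_eq_one_left h3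
      change ((f h)⁻¹).1 = _
      rw [← h4] }

end

theorem exists_GN (G m e : BName B) (c : B)
    (H : ∀ h : Ult B, h.V c → IsGrp (E h) (Mdl.mk h G) (Mdl.mk h m) (Mdl.mk h e)) :
    ∃ (Γ : Type 1) (_ : Group Γ), Nonempty (GN G m e c Γ) := by
  classical
  letI := pgrp H
  refine ⟨sgrp H, inferInstance, ⟨?_⟩⟩
  have hn : ∀ g : sgrp H, ∀ h : {h : Ult B // h.V c},
      (g.1 h).1 = Mdl.mk h.1 (Classical.choose g.2) := fun g => Classical.choose_spec g.2
  exact
    { nam := fun g => Classical.choose g.2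
      mem := by
        intro g h hc
        rw [← hn g ⟨h, hc⟩]
        exact (g.1 ⟨h, hc⟩).2
      mul := by
        intro g g' h hc
        rw [← hn g ⟨h, hc⟩, ← hn g' ⟨h, hc⟩, ← hn (g * g') ⟨h, hc⟩]
        exact (has_gmul (H h hc) _ _ _).2 rfl
      one := by
        intro h hc
        rw [← hn 1 ⟨h, hc⟩]
        rfl
      surj := by
        intro x hx
        refine ⟨⟨fun h => ⟨Mdl.mk h.1 x, hx h.1 h.2⟩, x, fun h => rfl⟩, fun h hc => ?_⟩
        exact (hn _ ⟨h, hc⟩).symm }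

section

variable {G m e : BName B} {c : B} {Γ : Type 1} [Group Γ] (S : GN G m e c Γ)
  (H : ∀ h : Ult B, h.V c → IsGrp (E h) (Mdl.mk h G) (Mdl.mk h m) (Mdl.mk h e))

include H

theorem GN.has_mul (g g' : Γ) {h : Ult B} (hc : h.V c) (z : Mdl h) :
    Has (E h) (Mdl.mk h m) [Mdl.mk h (S.nam g), Mdl.mk h (S.nam g'), z] ↔
      z = Mdl.mk h (S.nam (g * g')) := by
  have h1 := has_gmul (H h hc) ⟨_, S.mem g h hc⟩ ⟨_, S.mem g' h hc⟩
  have h2 := (h1 _).1 (S.mul g g' h hc)
  rw [h2]
  exact h1 z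

theorem GN.surj_pt {h : Ult B} (hc : h.V c) (z : Mdl h) (hz : E h z (Mdl.mk h G)) :
    ∃ g, z = Mdl.mk h (S.nam g) := by
  obtain ⟨x, rfl⟩ := z.exists_rep
  obtain ⟨y, hy⟩ := exists_mix (κ := Bool) (fun k => cond k x e)
    (fun k => cond k (bmem x G) (bmem x G)ᶜ) (by
      intro i j hij
      cases i <;> cases j
      · exact absurd rfl hij
      · exact disjoint_compl_left
      · exact disjoint_compl_right
      · exact absurd rfl hij)
  have hy1 : bmem x G ≤ beq y x := hy true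
  have hy2 : (bmem x G)ᶜ ≤ beq y e := hy false
  obtain ⟨g, hg⟩ := S.surj y (by
    intro h' hc'
    by_cases hb : h'.V (bmem x G)
    · have h1 : Mdl.mk h' y = Mdl.mk h' x := Mdl.mk_eq.2 (h'.mono hy1 hb)
      rw [h1]
      exact hb
    · have h1 : Mdl.mk h' y = Mdl.mk h' e := Mdl.mk_eq.2 (h'.mono hy2 ((h'.compl' _).2 hb))
      rw [h1]
      exact (H h' hc').2.2.1)
  refine ⟨g, ?_⟩
  rw [hg h hc]
  exact (Mdl.mk_eq.2 (h.mono hy1 hz)).symm

theorem GN.congr_mul {g₁ g₂ g₁' g₂' : Γ} {h : Ult B} (hc : h.V c)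
    (h1 : Mdl.mk h (S.nam g₁) = Mdl.mk h (S.nam g₂))
    (h2 : Mdl.mk h (S.nam g₁') = Mdl.mk h (S.nam g₂')) :
    Mdl.mk h (S.nam (g₁ * g₁')) = Mdl.mk h (S.nam (g₂ * g₂')) := by
  have h3 := S.mul g₁ g₁' h hc
  rw [h1, h2] at h3
  exact (S.has_mul H g₂ g₂' hc _).1 h3

theorem GN.eq_iff (g g' : Γ) {h : Ult B} (hc : h.V c) :
    Mdl.mk h (S.nam g) = Mdl.mk h (S.nam g') ↔
      Mdl.mk h (S.nam (g⁻¹ * g')) = Mdl.mk h e := by
  rw [← S.one h hc]
  constructor
  · intro h1
    have h2 := S.congr_mul H (g₁ := g⁻¹) (g₂ := g⁻¹) hc rfl h1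
    rw [inv_mul_cancel] at h2
    exact h2.symm
  · intro h1
    have h2 := S.congr_mul H (g₁ := g) (g₂ := g) hc rfl h1
    rw [mul_inv_cancel_left, mul_one] at h2
    exact h2.symm

theorem GN.exists_Z : ∃ Z : Ult B → Subgroup Γ,
    (∀ h : Ult B, h.V c → ∀ g, g ∈ Z h ↔ Mdl.mk h (S.nam g) = Mdl.mk h e) ∧
      ∀ h : Ult B, h.V c → ∀ z ∈ Z h, ∀ g, g⁻¹ * z * g ∈ Z h := by
  classical
  have key : ∀ h : Ult B, h.V c → ∃ Z : Subgroup Γ,
      ∀ g, g ∈ Z ↔ Mdl.mk h (S.nam g) = Mdl.mk h e := by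
    intro h hc
    refine ⟨
      { carrier := {g | Mdl.mk h (S.nam g) = Mdl.mk h e}
        one_mem' := S.one h hc
        mul_mem' := ?_
        inv_mem' := ?_ }, fun g => Iff.rfl⟩
    · intro a b ha hb
      have ha' : Mdl.mk h (S.nam a) = Mdl.mk h (S.nam 1) := by rw [S.one h hc]; exact ha
      have hb' : Mdl.mk h (S.nam b) = Mdl.mk h (S.nam 1) := by rw [S.one h hc]; exact hb
      have h1 := S.congr_mul H hc ha' hb'
      rw [mul_one, S.one h hc] at h1
      exact h1
    · intro a ha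
      have ha' : Mdl.mk h (S.nam a) = Mdl.mk h (S.nam 1) := by rw [S.one h hc]; exact ha
      have h1 := (S.eq_iff H a 1 hc).1 ha'
      rw [mul_one] at h1
      exact h1
  refine ⟨fun h => if hc : h.V c then (key h hc).choose else ⊥, ?_, ?_⟩
  · intro h hc g
    simp only [dif_pos hc]
    exact (key h hc).choose_spec g
  · intro h hc z hz g
    simp only [dif_pos hc] at hz ⊢
    rw [(key h hc).choose_spec] at hz ⊢
    have hz' : Mdl.mk h (S.nam z) = Mdl.mk h (S.nam 1) := by rw [S.one h hc]; exact hz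
    have h1 := S.congr_mul H (g₁ := g⁻¹) (g₂ := g⁻¹) hc rfl hz'
    have h2 := S.congr_mul H (g₁' := g) (g₂' := g) hc h1 rfl
    rw [mul_one, inv_mul_cancel, S.one h hc] at h2
    exact h2

theorem GN.mix (ι : Type) (b : ι → B) (g : ι → Γ)
    (hb : Pairwise (fun i j => Disjoint (b i) (b j))) :
    ∃ g' : Γ, ∀ i (h : Ult B), h.V (b i) → h.V c →
      Mdl.mk h (S.nam g') = Mdl.mk h (S.nam (g i)) := by
  classical
  obtain ⟨y, hy⟩ := exists_mix (κ := Option ι) (fun k => k.elim e (fun i => S.nam (g i)))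
    (fun k => k.elim (⨆ i, b i)ᶜ b) (by
      intro i j hij
      cases i with
      | none =>
        cases j with
        | none => exact absurd rfl hij
        | some j => exact (disjoint_compl_left.mono_right (le_iSup b j))
      | some i =>
        cases j with
        | none => exact (disjoint_compl_right.mono_left (le_iSup b i))
        | some j => exact hb (fun h => hij (congrArg some h)))
  have hy1 : ∀ i, b i ≤ beq y (S.nam (g i)) := fun i => hy (some i)
  have hy2 : (⨆ i, b i)ᶜ ≤ beq y e := hy none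
  have hG : c ≤ bmem y G := by
    have h1 : c = (c ⊓ ⨆ i, b i) ⊔ (c ⊓ (⨆ i, b i)ᶜ) := by
      rw [← inf_sup_left, sup_compl_eq_top, inf_top_eq]
    rw [h1, inf_iSup_eq]
    refine sup_le (iSup_le fun i => ?_) ?_
    · rw [Ult.le_iff]
      intro h hh
      rw [h.inf'] at hh
      have h2 : Mdl.mk h y = Mdl.mk h (S.nam (g i)) := Mdl.mk_eq.2 (h.mono (hy1 i) hh.2)
      have h3 : E h (Mdl.mk h y) (Mdl.mk h G) := by
        rw [h2]; exact S.mem (g i) h hh.1
      exact h3
    · rw [Ult.le_iff]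
      intro h hh
      rw [h.inf'] at hh
      have h2 : Mdl.mk h y = Mdl.mk h e := Mdl.mk_eq.2 (h.mono hy2 hh.2)
      have h3 : E h (Mdl.mk h y) (Mdl.mk h G) := by
        rw [h2]; exact (H h hh.1).2.2.1
      exact h3
  obtain ⟨g', hg'⟩ := S.surj y (fun h hc => h.mono hG hc)
  refine ⟨g', fun i h hi hc => ?_⟩
  rw [hg' h hc]
  exact Mdl.mk_eq.2 (h.mono (hy1 i) hi)

end

end Pool.Agent.MP_b00c97_gt.FO
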