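import Pool.Agent.MP_b00c97_gt.FO.Rtg
import Pool.Agent.MP_b00c97_gt.RN.Main
import Pool.Agent.MP_b00c97_gt.Lav.V6

/-!
# MP_b00c97_gt: a model of ZFC in which Q1 has a negative answer
-/

set_option autoImplicit false

namespace Pool.Agent.MP_b00c97_gt.FO

open Pool.Agent.BVM Pool.Agent.BVM.BName Pool.Agent.SetModel Pool.Agent.MP63050e
  Pool.Agent.MP_b00c97_gt.Mod

/-- There is a model of ZFC in which player I has no winning strategy on any `o`-bounded
topological group. -/
theorem exists_q1No : ∃ (M : Type 1) (E : M → M → Prop), IsModelZFC E ∧ Q1No E := by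
  obtain ⟨B, _, ⟨h⟩, hB⟩ := Lav.exists_LProp
  exact ⟨Mdl h, BVM.E h, mod_zfc h, q1No_of (fun c Γ _ hc R => R.false hB hc) h⟩

end Pool.Agent.MP_b00c97_gt.FO
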