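import Pool.Agent.MP_b00c97_gt.FO.Defs

/-! Names of sequences and of finite sets. -/

set_option autoImplicit false
set_option linter.unusedVariables false
set_option linter.unusedSectionVars false
set_option linter.unreachableTactic false
set_option linter.unusedTactic false

namespace Pool.Agent.MP_b00c97_gt.FO

open Filter MeasureTheory Pool.Agent.BVM Pool.Agent.BVM.BName Pool.Agent.SetModel
  Pool.Agent.MP63050e Pool.Agent.MP7e7dde Pool.Agent.MP9096b7 Pool.Agent.MP_b00c97_gt.Mod
  Pool.Agent.MP_b00c97_gt.RN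

universe u v

variable {B : Type} [CompleteBooleanAlgebra B]

section gen

variable {ι : Type} (n : ι → ℕ) (e : ι → BName B)

/-- The name of the function `n i ↦ e i`. -/
noncomputable def gqN : BName B := BName.mk ι (fun i => opair (vN (n i)) (e i)) (fun _ => ⊤)

theorem gq_pair {h : Ult B} (hn : Function.Injective n) (i : ι) (y : Mdl h)
    (H : E h (pr h (nM h (n i)) y) (Mdl.mk h (gqN n e))) : y = Mdl.mk h (e i) := by
  obtain ⟨y, rfl⟩ := y.exists_rep
  refine forall_mem' (P := fun h p => ∀ x', p = pr h (nM h (n i)) x' → x' = Mdl.mk h (e i))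
      _ _ ?_ ?_ h _ H _ rfl
  · (repeat' first | exact BMap.id | apply BMap.fst | apply BMap.snd | exact BTerm.const _ | apply bterm_opair | apply BTerm.of | apply BPred.mem | apply BPred.eq | apply bp_has2 | apply bp_has3 | apply bp_has4 | apply bp_isTuple3 | apply bp_eq_pr | apply bp_isPair | apply bp_isUPair | apply bp_isFun | apply bp_injects | apply bp_leN | apply bp_sub | apply bp_isFin | apply bp_isTop | apply bp_isGrp | apply bp_isAbel | apply bp_isTopGrp | apply bp_isNbhd | apply bp_isFinSub | apply bp_inProd | apply bp_isSeqNb | apply bp_isSeqFs | apply bp_isOBdd | apply bp_isRestr | apply bp_isRule | apply bp_iWins | apply bp_isUMet | apply BPred.not | apply BPred.and | apply BPred.or | apply BPred.iff | apply BPred.imp | refine BPred.ex ?_ | refine BPred.all ?_ | exact BPred.const _)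
  · intro h j _ x' hx
    obtain ⟨h1, h2⟩ := pr_inj.1 (show pr h (nM h (n j)) (Mdl.mk h (e j)) =
      pr h (nM h (n i)) x' from hx)
    rw [vN_inj] at h1
    rw [hn h1] at h2
    exact h2.symm

theorem gq_mem (h : Ult B) (i : ι) : E h (pr h (nM h (n i)) (Mdl.mk h (e i)))
    (Mdl.mk h (gqN n e)) :=
  E_of_coe (e := fun i => opair (vN (n i)) (e i)) (c := fun _ => ⊤) (i := i) h.top'

theorem has_gq (h : Ult B) (hn : Function.Injective n) (i : ι) (y : Mdl h) :
    Has (E h) (Mdl.mk h (gqN n e)) [nM h (n i), y] ↔ y = Mdl.mk h (e i) := by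
  rw [has_iff (by simp)]
  constructor
  · exact gq_pair n e hn i y
  · rintro rfl
    exact gq_mem n e h i

theorem gq_val {c : B} {P : (h : Ult B) → Mdl h → Prop}
    (hP : BPred (fun h : Ult B => h) (fun h (x : BName B) => P h (Mdl.mk h x)))
    (H : ∀ i (h : Ult B), h.V c → P h (Mdl.mk h (e i))) (h : Ult B) (hc : h.V c)
    (a y : Mdl h) (ha : Has (E h) (Mdl.mk h (gqN n e)) [a, y]) : P h y := by
  rw [has_iff (by simp)] at ha
  refine forall_mem (fun i => opair (vN (n i)) (e i)) (fun _ => ⊤)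
    (P := fun h p => ∀ a b, p = pr h a b → P h b) ?_ (clop_V c) ?_ h hc _ ha a y rfl
  · refine BPred.all (BPred.all (BPred.imp ?_ ?_))
    · (repeat' first | exact BMap.id | apply BMap.fst | apply BMap.snd | exact BTerm.const _ | apply bterm_opair | apply BTerm.of | apply BPred.mem | apply BPred.eq | apply bp_has2 | apply bp_has3 | apply bp_has4 | apply bp_isTuple3 | apply bp_eq_pr | apply bp_isPair | apply bp_isUPair | apply bp_isFun | apply bp_injects | apply bp_leN | apply bp_sub | apply bp_isFin | apply bp_isTop | apply bp_isGrp | apply bp_isAbel | apply bp_isTopGrp | apply bp_isNbhd | apply bp_isFinSub | apply bp_inProd | apply bp_isSeqNb | apply bp_isSeqFs | apply bp_isOBdd | apply bp_isRestr | apply bp_isRule | apply bp_iWins | apply bp_isUMet | apply BPred.not | apply BPred.and | apply BPred.or | apply BPred.iff | apply BPred.imp | refine BPred.ex ?_ | refine BPred.all ?_ | exact BPred.const _)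
    · exact hP.comp (f := fun p : (BName B × BName B) × BName B => p.2) (BMap.snd BMap.id)
  · intro h hc i _ a b hab
    obtain ⟨-, h2⟩ := pr_inj.1 (show pr h (nM h (n i)) (Mdl.mk h (e i)) = pr h a b from hab)
    rw [← h2]
    exact H i h hc

theorem gq_isPair {D : BName B} (hD : ∀ (h : Ult B) i, E h (nM h (n i)) (Mdl.mk h D)) (h : Ult B)
    (p : Mdl h) (hp : E h p (Mdl.mk h (gqN n e))) :
    ∃ a b, E h a (Mdl.mk h D) ∧ E h b (Mdl.mk h (BName.mk ι e (fun _ => ⊤))) ∧
      IsPair (E h) p a b := by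
  refine forall_mem' (P := fun h p => ∃ a b, E h a (Mdl.mk h D) ∧
    E h b (Mdl.mk h (BName.mk ι e (fun _ => ⊤))) ∧
      IsPair (E h) p a b) _ _ ?_ ?_ h p hp
  · (repeat' first | exact BMap.id | apply BMap.fst | apply BMap.snd | exact BTerm.const _ | apply bterm_opair | apply BTerm.of | apply BPred.mem | apply BPred.eq | apply bp_has2 | apply bp_has3 | apply bp_has4 | apply bp_isTuple3 | apply bp_eq_pr | apply bp_isPair | apply bp_isUPair | apply bp_isFun | apply bp_injects | apply bp_leN | apply bp_sub | apply bp_isFin | apply bp_isTop | apply bp_isGrp | apply bp_isAbel | apply bp_isTopGrp | apply bp_isNbhd | apply bp_isFinSub | apply bp_inProd | apply bp_isSeqNb | apply bp_isSeqFs | apply bp_isOBdd | apply bp_isRestr | apply bp_isRule | apply bp_iWins | apply bp_isUMet | apply BPred.not | apply BPred.and | apply BPred.or | apply BPred.iff | apply BPred.imp | refine BPred.ex ?_ | refine BPred.all ?_ | exact BPred.const _)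
  · intro h i _
    exact ⟨nM h (n i), Mdl.mk h (e i), hD h i,
      E_of_coe (e := e) (i := i) h.top', isPair_iff.2 rfl⟩

end gen

theorem has_sqN (x : ℕ → BName B) (h : Ult B) (i : ℕ) (y : Mdl h) :
    Has (E h) (Mdl.mk h (sqN x)) [nM h i, y] ↔ y = Mdl.mk h (x i) :=
  has_gq (fun i : ℕ => i) x h (fun _ _ h => h) i y

theorem has_sgL (l : List (BName B)) (h : Ult B) (i : Fin l.length) (y : Mdl h) :
    Has (E h) (Mdl.mk h (sgL l)) [nM h (i : ℕ), y] ↔ y = Mdl.mk h (l.get i) :=
  has_gq (fun i : Fin l.length => (i : ℕ)) (fun i => l.get i) h Fin.val_injective i y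

theorem isSeqOf_sqN (x : ℕ → BName B) {c : B} {P : (h : Ult B) → Mdl h → Prop}
    (hP : BPred (fun h : Ult B => h) (fun h (x : BName B) => P h (Mdl.mk h x)))
    (H : ∀ i (h : Ult B), h.V c → P h (Mdl.mk h (x i))) :
    ∀ h : Ult B, h.V c → IsSeqOf (E h) (wM h) (P h) (Mdl.mk h (sqN x)) := by
  intro h hc
  refine ⟨⟨Mdl.mk h (BName.mk ℕ x (fun _ => ⊤)), fun p hp => ?_, ?_⟩, fun i y _ hy => ?_⟩
  · exact gq_isPair (fun i : ℕ => i) x (fun h i => E_nM h i) h p hp
  · refine forall_om (P := fun h a => ∃! b, Has (E h) (Mdl.mk h (sqN x)) [a, b]) ?_ clop_true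
      ?_ h trivial
    · unfold ExistsUnique
      (repeat' first | exact BMap.id | apply BMap.fst | apply BMap.snd | exact BTerm.const _ | apply bterm_opair | apply BTerm.of | apply BPred.mem | apply BPred.eq | apply bp_has2 | apply bp_has3 | apply bp_has4 | apply bp_isTuple3 | apply bp_eq_pr | apply bp_isPair | apply bp_isUPair | apply bp_isFun | apply bp_injects | apply bp_leN | apply bp_sub | apply bp_isFin | apply bp_isTop | apply bp_isGrp | apply bp_isAbel | apply bp_isTopGrp | apply bp_isNbhd | apply bp_isFinSub | apply bp_inProd | apply bp_isSeqNb | apply bp_isSeqFs | apply bp_isOBdd | apply bp_isRestr | apply bp_isRule | apply bp_iWins | apply bp_isUMet | apply BPred.not | apply BPred.and | apply BPred.or | apply BPred.iff | apply BPred.imp | refine BPred.ex ?_ | refine BPred.all ?_ | exact BPred.const _)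
    · intro h _ i
      exact ⟨_, (has_sqN x h i _).2 rfl, fun b hb => (has_sqN x h i b).1 hb⟩
  · exact gq_val (fun i : ℕ => i) x hP H h hc i y hy

theorem isSeqOf_sgL (l : List (BName B)) {c : B} {P : (h : Ult B) → Mdl h → Prop}
    (hP : BPred (fun h : Ult B => h) (fun h (x : BName B) => P h (Mdl.mk h x)))
    (H : ∀ x ∈ l, ∀ h : Ult B, h.V c → P h (Mdl.mk h x)) :
    ∀ h : Ult B, h.V c → IsSeqOf (E h) (nM h l.length) (P h) (Mdl.mk h (sgL l)) := by
  intro h hc
  refine ⟨⟨Mdl.mk h (BName.mk (Fin l.length) (fun i => l.get i) (fun _ => ⊤)), fun p hp => ?_, ?_⟩,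
    fun i y _ hy => ?_⟩
  · exact gq_isPair (fun i : Fin l.length => (i : ℕ)) (fun i => l.get i)
      (fun h i => E_nM_iff.2 ⟨_, i.2, rfl⟩) h p hp
  · intro a ha
    obtain ⟨i, hi, rfl⟩ := E_nM_iff.1 ha
    exact ⟨_, (has_sgL l h ⟨i, hi⟩ _).2 rfl, fun b hb => (has_sgL l h ⟨i, hi⟩ b).1 hb⟩
  · exact gq_val (fun i : Fin l.length => (i : ℕ)) (fun i => l.get i) hP
      (fun i h hc => H _ (List.get_mem l i) h hc) h hc i y hy

theorem isRestr_sgL (x : ℕ → BName B) (l : List (BName B)) (h : Ult B)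
    (H : ∀ i (hi : i < l.length), Mdl.mk h (l.get ⟨i, hi⟩) = Mdl.mk h (x i)) :
    IsRestr (E h) (Mdl.mk h (sgL l)) (Mdl.mk h (sqN x)) (nM h l.length) := by
  intro p
  constructor
  · intro hp
    obtain ⟨a, b, ha, hb, hab⟩ := gq_isPair (fun i : Fin l.length => (i : ℕ)) (fun i => l.get i)
      (D := vN l.length) (fun h i => E_nM_iff.2 ⟨_, i.2, rfl⟩) h p hp
    obtain ⟨i, hi, rfl⟩ := E_nM_iff.1 ha
    refine ⟨?_, _, b, ha, hab⟩
    rw [isPair_iff] at hab
    subst hab
    have h1 := gq_pair (fun i : Fin l.length => (i : ℕ)) (fun i => l.get i) Fin.val_injective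
      ⟨i, hi⟩ b hp
    rw [h1, H i hi]
    exact gq_mem (fun i : ℕ => i) x h i
  · rintro ⟨hp, a, b, ha, hab⟩
    obtain ⟨i, hi, rfl⟩ := E_nM_iff.1 ha
    rw [isPair_iff] at hab
    subst hab
    have h1 := gq_pair (fun i : ℕ => i) x (fun _ _ h => h) i b hp
    rw [h1, ← H i hi]
    exact gq_mem (fun i : Fin l.length => (i : ℕ)) (fun i => l.get i) h ⟨i, hi⟩

theorem V_iSup_fin {h : Ult B} {ι : Type} [Finite ι] (f : ι → B) :
    h.V (⨆ i, f i) ↔ ∃ i, h.V (f i) := by
  constructor
  · intro H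
    by_contra hcon
    push Not at hcon
    have h1 : h.V (⨅ i, (f i)ᶜ) := (V_iInf_fin _).2 fun i => (h.compl' _).2 (hcon i)
    rw [← compl_iSup] at h1
    exact (h.compl' _).1 h1 H
  · rintro ⟨i, hi⟩
    exact h.iSup_of f i hi

theorem E_fin {h : Ult B} {ι : Type} [Finite ι] (e : ι → BName B) (c : ι → B) (z : Mdl h) :
    E h z (Mdl.mk h (BName.mk ι e c)) ↔ ∃ i, h.V (c i) ∧ z = Mdl.mk h (e i) := by
  obtain ⟨z, rfl⟩ := z.exists_rep
  rw [E_mk, bmem_mk, V_iSup_fin]
  refine exists_congr fun i => ?_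
  rw [h.inf', Mdl.mk_eq]

theorem E_fsN (l : List (BName B)) (h : Ult B) (z : Mdl h) :
    E h z (Mdl.mk h (fsN l)) ↔ ∃ x ∈ l, z = Mdl.mk h x := by
  rw [fsN, E_fin]
  constructor
  · rintro ⟨i, -, hi⟩
    exact ⟨_, List.get_mem l i, hi⟩
  · rintro ⟨x, hx, rfl⟩
    obtain ⟨i, rfl⟩ := List.get_of_mem hx
    exact ⟨i, h.top', rfl⟩

theorem isFin_fsN (l : List (BName B)) (h : Ult B) : IsFin (E h) (wM h) (Mdl.mk h (fsN l)) := by
  refine isFin_seq (fun i => l.getD i (vN (0 : ℕ))) l.length (fun z hz => ?_)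
  rw [fsN, E_fin] at hz
  obtain ⟨i, -, rfl⟩ := hz
  have h1 : l.get i = l.getD (i : ℕ) (vN (0 : ℕ)) := by simp
  rw [h1]
  exact E_of_coe (e := fun m : {m // m < l.length} => l.getD m.1 (vN (0 : ℕ)))
    (c := fun _ => ⊤) (i := ⟨i.1, i.2⟩) h.top'

theorem rfN_eq (d : ℕ → BName B) {κ : Ult B → ℕ} (hκ : Measurable[genM B] κ) :
    ∀ᶠ ω in genN B, Mdl.mk ω (rfN d κ) = Mdl.mk ω (fsN ((List.range (κ ω)).map d)) := by
  have h1 : ∀ᶠ ω in genN B, ∀ j : ℕ, (ω.V (bv {ω | j < κ ω}) ↔ j < κ ω) :=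
    eventually_countable_forall.2 fun j =>
      bv_spec (A := {ω | j < κ ω}) (meas_rel1 hκ (fun v => j < v))
  have h2 : ∀ᶠ ω in genN B, ∀ k : ℕ,
      (∀ j : ℕ, ω.V (bv {ω | j < κ ω}) → E ω (Mdl.mk ω (d j))
        (Mdl.mk ω (fsN ((List.range k).map d)))) →
      ∀ z, E ω z (Mdl.mk ω (rfN d κ)) → E ω z (Mdl.mk ω (fsN ((List.range k).map d))) :=
    eventually_countable_forall.2 fun k =>
      ae_forall_mem d (fun j => bv {ω | j < κ ω})
        (P := fun h z => E h z (Mdl.mk h (fsN ((List.range k).map d)))) (by (repeat' first | exact BMap.id | apply BMap.fst | apply BMap.snd | exact BTerm.const _ | apply bterm_opair | apply BTerm.of | apply BPred.mem | apply BPred.eq | apply bp_has2 | apply bp_has3 | apply bp_has4 | apply bp_isTuple3 | apply bp_eq_pr | apply bp_isPair | apply bp_isUPair | apply bp_isFun | apply bp_injects | apply bp_leN | apply bp_sub | apply bp_isFin | apply bp_isTop | apply bp_isGrp | apply bp_isAbel | apply bp_isTopGrp | apply bp_isNbhd | apply bp_isFinSub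 | apply bp_inProd | apply bp_isSeqNb | apply bp_isSeqFs | apply bp_isOBdd | apply bp_isRestr | apply bp_isRule | apply bp_iWins | apply bp_isUMet | apply BPred.not | apply BPred.and | apply BPred.or | apply BPred.iff | apply BPred.imp | refine BPred.ex ?_ | refine BPred.all ?_ | exact BPred.const _))
  filter_upwards [h1, h2] with ω h1 h2
  apply Mdl.ext
  intro z
  constructor
  · refine h2 (κ ω) (fun j hj => ?_) z
    rw [h1] at hj
    exact (E_fsN _ _ _).2 ⟨d j, List.mem_map.2 ⟨j, List.mem_range.2 hj, rfl⟩, rfl⟩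
  · intro hz
    obtain ⟨x, hx, rfl⟩ := (E_fsN _ _ _).1 hz
    obtain ⟨j, hj, rfl⟩ := List.mem_map.1 hx
    rw [List.mem_range] at hj
    exact E_of_coe (e := d) (c := fun j => bv {ω | j < κ ω}) (i := j) ((h1 j).2 hj)

theorem isFinSub_rfN {G : BName B} {c : B} (d : ℕ → BName B) {κ : Ult B → ℕ}
    (hκ : Measurable[genM B] κ)
    (hd : ∀ j (h : Ult B), h.V c → E h (Mdl.mk h (d j)) (Mdl.mk h G)) :
    ∀ h : Ult B, h.V c → IsFinSub (E h) (wM h) (Mdl.mk h G) (Mdl.mk h (rfN d κ)) := by
  refine of_gen (Q := fun h : Ult B => h.V c)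
    (P := fun h => IsFinSub (E h) (wM h) (Mdl.mk h G) (Mdl.mk h (rfN d κ))) (clop_V c) ?_ ?_
  · exact BPred.clop (P := fun h (_ : PUnit.{1}) =>
      IsFinSub (E h) (wM h) (Mdl.mk h G) (Mdl.mk h (rfN d κ))) (by (repeat' first | exact BMap.id | apply BMap.fst | apply BMap.snd | exact BTerm.const _ | apply bterm_opair | apply BTerm.of | apply BPred.mem | apply BPred.eq | apply bp_has2 | apply bp_has3 | apply bp_has4 | apply bp_isTuple3 | apply bp_eq_pr | apply bp_isPair | apply bp_isUPair | apply bp_isFun | apply bp_injects | apply bp_leN | apply bp_sub | apply bp_isFin | apply bp_isTop | apply bp_isGrp | apply bp_isAbel | apply bp_isTopGrp | apply bp_isNbhd | apply bp_isFinSub | apply bp_inProd | apply bp_isSeqNb | apply bp_isSeqFs | apply bp_isOBdd | apply bp_isRestr | apply bp_isRule | apply bp_iWins | apply bp_isUMet | apply BPred.not | apply BPred.and | apply BPred.or | apply BPred.iff | apply BPred.imp | refine BPred.ex ?_ | refine BPred.all ?_ | exact BPred.const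 _)) PUnit.unit
  filter_upwards [rfN_eq d hκ] with ω h1 hc
  rw [h1]
  refine ⟨fun z hz => ?_, isFin_fsN _ ω⟩
  obtain ⟨x, hx, rfl⟩ := (E_fsN _ _ _).1 hz
  obtain ⟨j, hj, rfl⟩ := List.mem_map.1 hx
  exact hd j ω hc

end Pool.Agent.MP_b00c97_gt.FO
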