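import Pool.Agent.MP_b00c97_gt.FO.Grp
import Pool.Agent.MP_b00c97_gt.FO.Enum
import Pool.Agent.MP_b00c97_gt.FO.Seq

/-!
# MP_b00c97_gt, part FO, block FE: o-boundedness
-/

set_option autoImplicit false

namespace Pool.Agent.MP_b00c97_gt.FO

open Filter MeasureTheory Pool.Agent.BVM Pool.Agent.BVM.BName Pool.Agent.SetModel
  Pool.Agent.MP63050e Pool.Agent.MP7e7dde Pool.Agent.MP9096b7 Pool.Agent.MP_b00c97_gt.Mod
  Pool.Agent.MP_b00c97_gt.RN

universe u v

variable {B : Type} [CompleteBooleanAlgebra B]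

theorem GN.exists_obd {G m e T : BName B} {c : B} {Γ : Type 1} [Group Γ] (S : GN G m e c Γ)
    (H : ∀ h : Ult B, h.V c → IsGrp (E h) (Mdl.mk h G) (Mdl.mk h m) (Mdl.mk h e))
    (Ho : ∀ h : Ult B, h.V c → IsOBdd (E h) (wM h) (Mdl.mk h G) (Mdl.mk h m) (Mdl.mk h e)
      (Mdl.mk h T))
    (x : ℕ → BName B) (hx : ∀ i (h : Ult B), h.V c →
      IsNbhd (E h) (Mdl.mk h G) (Mdl.mk h e) (Mdl.mk h T) (Mdl.mk h (x i))) :
    ∃ (d : ℕ → ℕ → Γ) (κ : Ult B → ℕ → ℕ), IsR κ ∧
      ∀ g : Γ, AE c fun ω => ∃ i, ∃ j < κ ω i,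
        E ω (Mdl.mk ω (S.nam ((d i j)⁻¹ * g))) (Mdl.mk ω (x i)) := by
  classical
  have hseq := isSeqOf_sqN x (c := c)
    (P := fun h y => IsNbhd (E h) (Mdl.mk h G) (Mdl.mk h e) (Mdl.mk h T) y) (by (repeat' first | exact BMap.id | apply BMap.fst | apply BMap.snd | exact BTerm.const _ | apply bterm_opair | apply BTerm.of | apply BPred.mem | apply BPred.eq | apply bp_has2 | apply bp_has3 | apply bp_has4 | apply bp_isTuple3 | apply bp_eq_pr | apply bp_isPair | apply bp_isUPair | apply bp_isFun | apply bp_injects | apply bp_leN | apply bp_sub | apply bp_isFin | apply bp_isTop | apply bp_isGrp | apply bp_isAbel | apply bp_isTopGrp | apply bp_isNbhd | apply bp_isFinSub | apply bp_inProd | apply bp_isSeqNb | apply bp_isSeqFs | apply bp_isOBdd | apply bp_isRestr | apply bp_isRule | apply bp_iWins | apply bp_isUMet | apply BPred.not | apply BPred.and | apply BPred.or | apply BPred.iff | apply BPred.imp | refine BPred.ex ?_ | refine BPred.all ?_ | exact BPred.const _)) hx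
  -- the finite sets
  obtain ⟨F, hF⟩ := exists_wit (Q := fun h : Ult B => h.V c)
    (P := fun h F => IsSeqOf (E h) (wM h) (IsFinSub (E h) (wM h) (Mdl.mk h G)) F ∧
      ∀ g, E h g (Mdl.mk h G) → ∃ n u f, E h n (wM h) ∧ Has (E h) (Mdl.mk h (sqN x)) [n, u] ∧
        Has (E h) F [n, f] ∧ InProd (E h) (Mdl.mk h m) f u g) (by (repeat' first | exact BMap.id | apply BMap.fst | apply BMap.snd | exact BTerm.const _ | apply bterm_opair | apply BTerm.of | apply BPred.mem | apply BPred.eq | apply bp_has2 | apply bp_has3 | apply bp_has4 | apply bp_isTuple3 | apply bp_eq_pr | apply bp_isPair | apply bp_isUPair | apply bp_isFun | apply bp_injects | apply bp_leN | apply bp_sub | apply bp_isFin | apply bp_isTop | apply bp_isGrp | apply bp_isAbel | apply bp_isTopGrp | apply bp_isNbhd | apply bp_isFinSub | apply bp_inProd | apply bp_isSeqNb | apply bp_isSeqFs | apply bp_isOBdd | apply bp_isRestr | apply bp_isRule | apply bp_iWins | apply bp_isUMet | apply BPred.not | apply BPred.and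 | apply BPred.or | apply BPred.iff | apply BPred.imp | refine BPred.ex ?_ | refine BPred.all ?_ | exact BPred.const _))
    (fun h hc => Ho h hc _ (hseq h hc))
  have hf : ∀ i : ℕ, ∃ f : BName B, ∀ h : Ult B, h.V c →
      Has (E h) (Mdl.mk h F) [nM h i, Mdl.mk h f] := by
    intro i
    refine exists_wit (P := fun h y => Has (E h) (Mdl.mk h F) [nM h i, y]) (by (repeat' first | exact BMap.id | apply BMap.fst | apply BMap.snd | exact BTerm.const _ | apply bterm_opair | apply BTerm.of | apply BPred.mem | apply BPred.eq | apply bp_has2 | apply bp_has3 | apply bp_has4 | apply bp_isTuple3 | apply bp_eq_pr | apply bp_isPair | apply bp_isUPair | apply bp_isFun | apply bp_injects | apply bp_leN | apply bp_sub | apply bp_isFin | apply bp_isTop | apply bp_isGrp | apply bp_isAbel | apply bp_isTopGrp | apply bp_isNbhd | apply bp_isFinSub | apply bp_inProd | apply bp_isSeqNb | apply bp_isSeqFs | apply bp_isOBdd | apply bp_isRestr | apply bp_isRule | apply bp_iWins | apply bp_isUMet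 | apply BPred.not | apply BPred.and | apply BPred.or | apply BPred.iff | apply BPred.imp | refine BPred.ex ?_ | refine BPred.all ?_ | exact BPred.const _)) ?_
    intro h hc
    obtain ⟨⟨⟨Y, hY⟩, -⟩, -⟩ := hF h hc
    exact (hY.2 _ (E_nM h i)).exists
  choose f hf using hf
  have hfin : ∀ i (h : Ult B), h.V c → IsFinSub (E h) (wM h) (Mdl.mk h G) (Mdl.mk h (f i)) :=
    fun i h hc => (hF h hc).1.2 _ _ (E_nM h i) (hf i h hc)
  choose d' κ hκ hd' hen using fun i => exists_enum_fin (f i) e c fun h hc => (hfin i h hc).2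
  have hdG : ∀ i j (h : Ult B), h.V c → E h (Mdl.mk h (d' i j)) (Mdl.mk h G) := by
    intro i j h hc
    rcases hd' i j h hc with h1 | h1
    · exact (hfin i h hc).1 _ h1
    · rw [h1]; exact (H h hc).2.2.1
  choose d hd using fun i j => S.surj (d' i j) (hdG i j)
  refine ⟨d, fun ω i => κ i ω, meas_pi' fun i => hκ i, fun g => ?_⟩
  have h1 := ae_exists_om (B := B) (P := fun h n => ∃ u f', Has (E h) (Mdl.mk h (sqN x)) [n, u] ∧
    Has (E h) (Mdl.mk h F) [n, f'] ∧ InProd (E h) (Mdl.mk h m) f' u (Mdl.mk h (S.nam g))) (by (repeat' first | exact BMap.id | apply BMap.fst | apply BMap.snd | exact BTerm.const _ | apply bterm_opair | apply BTerm.of | apply BPred.mem | apply BPred.eq | apply bp_has2 | apply bp_has3 | apply bp_has4 | apply bp_isTuple3 | apply bp_eq_pr | apply bp_isPair | apply bp_isUPair | apply bp_isFun | apply bp_injects | apply bp_leN | apply bp_sub | apply bp_isFin | apply bp_isTop | apply bp_isGrp | apply bp_isAbel | apply bp_isTopGrp | apply bp_isNbhd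 | apply bp_isFinSub | apply bp_inProd | apply bp_isSeqNb | apply bp_isSeqFs | apply bp_isOBdd | apply bp_isRestr | apply bp_isRule | apply bp_iWins | apply bp_isUMet | apply BPred.not | apply BPred.and | apply BPred.or | apply BPred.iff | apply BPred.imp | refine BPred.ex ?_ | refine BPred.all ?_ | exact BPred.const _))
  have h2 := eventually_countable_forall.2 hen
  filter_upwards [h1, h2] with ω h1 h2 hc
  obtain ⟨i, u, f', hu, hf', a, v, ha, hv, hav⟩ := h1 (by
    obtain ⟨n, u, f', hn, h3⟩ := (hF ω hc).2 _ (S.mem g ω hc)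
    exact ⟨n, hn, u, f', h3⟩)
  rw [has_sqN] at hu
  subst hu
  obtain ⟨⟨⟨Y, hY⟩, -⟩, -⟩ := hF ω hc
  have hff : f' = Mdl.mk ω (f i) := (hY.2 _ (E_nM ω i)).unique hf' (hf i ω hc)
  subst hff
  obtain ⟨j, hj, rfl⟩ := h2 i hc a ha
  refine ⟨i, j, hj, ?_⟩
  obtain ⟨g1, rfl⟩ := S.surj_pt H hc v ((hx i ω hc).1 v hv)
  rw [← hd i j ω hc, S.has_mul H _ _ hc, S.eq_iff H _ _ hc] at hav
  have h3 : Mdl.mk ω (S.nam ((d i j)⁻¹ * g)) = Mdl.mk ω (S.nam g1) := by
    rw [S.eq_iff H _ _ hc, show ((d i j)⁻¹ * g)⁻¹ * g1 = g⁻¹ * (d i j * g1) by group]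
    exact hav
  rw [h3]
  exact hv

end Pool.Agent.MP_b00c97_gt.FO
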