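import Pool.Agent.MP_b00c97_gt.FO.Grp
import Pool.Agent.MP_b00c97_gt.FO.Seq

/-! Block FF: the strategy of player I. -/

set_option autoImplicit false
set_option linter.unusedVariables false
set_option linter.unusedSectionVars false

namespace Pool.Agent.MP_b00c97_gt.FO

open Filter MeasureTheory Pool.Agent.BVM Pool.Agent.BVM.BName Pool.Agent.SetModel
  Pool.Agent.MP63050e Pool.Agent.MP7e7dde Pool.Agent.MP9096b7 Pool.Agent.MP_b00c97_gt.Mod
  Pool.Agent.MP_b00c97_gt.RN

variable {B : Type} [CompleteBooleanAlgebra B]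

/-- The name of a history. -/
noncomputable def hsN {Γ : Type 1} (nam : Γ → BName B) (s : List (List Γ)) : BName B :=
  sgL (s.map fun l => fsN (l.map nam))

theorem length_hist {Γ : Type 1} (d : ℕ → ℕ → Γ) (k : ℕ → ℕ) (n : ℕ) :
    (hist d k n).length = n := by
  simp [hist]

theorem GN.exists_strat {G m e T : BName B} {c : B} {Γ : Type 1} [Group Γ] (S : GN G m e c Γ)
    (H : ∀ h : Ult B, h.V c → IsGrp (E h) (Mdl.mk h G) (Mdl.mk h m) (Mdl.mk h e))
    (Hw : ∀ h : Ult B, h.V c → IWins (E h) (wM h) (Mdl.mk h G) (Mdl.mk h m) (Mdl.mk h e)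
      (Mdl.mk h T)) :
    ∃ σ : List (List Γ) → BName B,
      (∀ s (h : Ult B), h.V c →
        IsNbhd (E h) (Mdl.mk h G) (Mdl.mk h e) (Mdl.mk h T) (Mdl.mk h (σ s))) ∧
      ∀ (d : ℕ → ℕ → Γ) (κ : Ult B → ℕ → ℕ), IsR κ →
        ∃ g : Γ, AE c fun ω => ∀ n, ∀ j < κ ω n,
          ¬ E ω (Mdl.mk ω (S.nam ((d n j)⁻¹ * g))) (Mdl.mk ω (σ (hist d (κ ω) n))) := by
  -- the rule
  obtain ⟨R, hR⟩ : ∃ R : BName B, ∀ h : Ult B, h.V c →
      (IsRule (E h) (wM h) (Mdl.mk h G) (Mdl.mk h e) (Mdl.mk h T) (Mdl.mk h R) ∧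
      ∀ F, IsSeqOf (E h) (wM h) (IsFinSub (E h) (wM h) (Mdl.mk h G)) F →
        ∃ g, E h g (Mdl.mk h G) ∧ ∀ n s U f, E h n (wM h) → IsRestr (E h) s F n →
          Has (E h) (Mdl.mk h R) [s, U] → Has (E h) F [n, f] →
            ¬ InProd (E h) (Mdl.mk h m) f U g) := by
    refine exists_wit (P := fun h R =>
      (IsRule (E h) (wM h) (Mdl.mk h G) (Mdl.mk h e) (Mdl.mk h T) R ∧
      ∀ F, IsSeqOf (E h) (wM h) (IsFinSub (E h) (wM h) (Mdl.mk h G)) F →
        ∃ g, E h g (Mdl.mk h G) ∧ ∀ n s U f, E h n (wM h) → IsRestr (E h) s F n →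
          Has (E h) R [s, U] → Has (E h) F [n, f] →
            ¬ InProd (E h) (Mdl.mk h m) f U g)) ?_ (fun h hc => Hw h hc)
    refine BPred.and ?_ ?_
    · (repeat' first | exact BMap.id | apply BMap.fst | apply BMap.snd | exact BTerm.const _ | apply bterm_opair | apply BTerm.of | apply BPred.mem | apply BPred.eq | apply bp_has2 | apply bp_has3 | apply bp_has4 | apply bp_isTuple3 | apply bp_eq_pr | apply bp_isPair | apply bp_isUPair | apply bp_isFun | apply bp_injects | apply bp_leN | apply bp_sub | apply bp_isFin | apply bp_isTop | apply bp_isGrp | apply bp_isAbel | apply bp_isTopGrp | apply bp_isNbhd | apply bp_isFinSub | apply bp_inProd | apply bp_isSeqNb | apply bp_isSeqFs | apply bp_isOBdd | apply bp_isRestr | apply bp_isRule | apply bp_iWins | apply bp_isUMet | apply BPred.not | apply BPred.and | apply BPred.or | apply BPred.iff | apply BPred.imp | refine BPred.ex ?_ | refine BPred.all ?_ | exact BPred.const _)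
    · refine BPred.all (BPred.imp ?_ ?_)
      · apply bp_isSeqFs <;> (repeat' first | exact BMap.id | apply BMap.fst | apply BMap.snd | exact BTerm.const _ | apply bterm_opair | apply BTerm.of | apply BPred.mem | apply BPred.eq | apply bp_has2 | apply bp_has3 | apply bp_has4 | apply bp_isTuple3 | apply bp_eq_pr | apply bp_isPair | apply bp_isUPair | apply bp_isFun | apply bp_injects | apply bp_leN | apply bp_sub | apply bp_isFin | apply bp_isTop | apply bp_isGrp | apply bp_isAbel | apply bp_isTopGrp | apply bp_isNbhd | apply bp_isFinSub | apply bp_inProd | apply bp_isSeqNb | apply bp_isSeqFs | apply bp_isOBdd | apply bp_isRestr | apply bp_isRule | apply bp_iWins | apply bp_isUMet | apply BPred.not | apply BPred.and | apply BPred.or | apply BPred.iff | apply BPred.imp | refine BPred.ex ?_ | refine BPred.all ?_ | exact BPred.const _)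
      · (repeat' first | exact BMap.id | apply BMap.fst | apply BMap.snd | exact BTerm.const _ | apply bterm_opair | apply BTerm.of | apply BPred.mem | apply BPred.eq | apply bp_has2 | apply bp_has3 | apply bp_has4 | apply bp_isTuple3 | apply bp_eq_pr | apply bp_isPair | apply bp_isUPair | apply bp_isFun | apply bp_injects | apply bp_leN | apply bp_sub | apply bp_isFin | apply bp_isTop | apply bp_isGrp | apply bp_isAbel | apply bp_isTopGrp | apply bp_isNbhd | apply bp_isFinSub | apply bp_inProd | apply bp_isSeqNb | apply bp_isSeqFs | apply bp_isOBdd | apply bp_isRestr | apply bp_isRule | apply bp_iWins | apply bp_isUMet | apply BPred.not | apply BPred.and | apply BPred.or | apply BPred.iff | apply BPred.imp | refine BPred.ex ?_ | refine BPred.all ?_ | exact BPred.const _)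
  -- the neighbourhoods
  have hσ : ∀ s : List (List Γ), ∃ U : BName B, ∀ h : Ult B, h.V c →
      IsNbhd (E h) (Mdl.mk h G) (Mdl.mk h e) (Mdl.mk h T) (Mdl.mk h U) ∧
        ∀ U', Has (E h) (Mdl.mk h R) [Mdl.mk h (hsN S.nam s), U'] ↔ U' = Mdl.mk h U := by
    intro s
    refine exists_wit (P := fun h U =>
      IsNbhd (E h) (Mdl.mk h G) (Mdl.mk h e) (Mdl.mk h T) U ∧
        ∀ U', Has (E h) (Mdl.mk h R) [Mdl.mk h (hsN S.nam s), U'] ↔ U' = U) (by (repeat' first | exact BMap.id | apply BMap.fst | apply BMap.snd | exact BTerm.const _ | apply bterm_opair | apply BTerm.of | apply BPred.mem | apply BPred.eq | apply bp_has2 | apply bp_has3 | apply bp_has4 | apply bp_isTuple3 | apply bp_eq_pr | apply bp_isPair | apply bp_isUPair | apply bp_isFun | apply bp_injects | apply bp_leN | apply bp_sub | apply bp_isFin | apply bp_isTop | apply bp_isGrp | apply bp_isAbel | apply bp_isTopGrp | apply bp_isNbhd | apply bp_isFinSub | apply bp_inProd | apply bp_isSeqNb | apply bp_isSeqFs | apply bp_isOBdd | apply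 bp_isRestr | apply bp_isRule | apply bp_iWins | apply bp_isUMet | apply BPred.not | apply BPred.and | apply BPred.or | apply BPred.iff | apply BPred.imp | refine BPred.ex ?_ | refine BPred.all ?_ | exact BPred.const _)) ?_
    intro h hc
    refine (hR h hc).1 (nM h (s.map fun l => fsN (l.map S.nam)).length) _ (E_nM h _) ?_
    refine isSeqOf_sgL (c := c) _ (P := fun h => IsFinSub (E h) (wM h) (Mdl.mk h G)) (by (repeat' first | exact BMap.id | apply BMap.fst | apply BMap.snd | exact BTerm.const _ | apply bterm_opair | apply BTerm.of | apply BPred.mem | apply BPred.eq | apply bp_has2 | apply bp_has3 | apply bp_has4 | apply bp_isTuple3 | apply bp_eq_pr | apply bp_isPair | apply bp_isUPair | apply bp_isFun | apply bp_injects | apply bp_leN | apply bp_sub | apply bp_isFin | apply bp_isTop | apply bp_isGrp | apply bp_isAbel | apply bp_isTopGrp | apply bp_isNbhd | apply bp_isFinSub | apply bp_inProd | apply bp_isSeqNb | apply bp_isSeqFs | apply bp_isOBdd | apply bp_isRestr | apply bp_isRule | apply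 bp_iWins | apply bp_isUMet | apply BPred.not | apply BPred.and | apply BPred.or | apply BPred.iff | apply BPred.imp | refine BPred.ex ?_ | refine BPred.all ?_ | exact BPred.const _)) ?_ h hc
    intro x hx h hc
    obtain ⟨l, hl, rfl⟩ := List.mem_map.1 hx
    refine ⟨fun z hz => ?_, isFin_fsN _ h⟩
    obtain ⟨y, hy, rfl⟩ := (E_fsN _ h z).1 hz
    obtain ⟨g, -, rfl⟩ := List.mem_map.1 hy
    exact S.mem g h hc
  choose σ hσ using hσ
  refine ⟨σ, fun s h hc => (hσ s h hc).1, ?_⟩
  intro d κ hκ
  have hκn : ∀ n, Measurable[genM B] fun ω => κ ω n := fun n => MP9096b7.meas_coord hκ n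
  let x : ℕ → BName B := fun n => rfN (fun j => S.nam (d n j)) (fun ω => κ ω n)
  have hF : ∀ h : Ult B, h.V c → IsSeqOf (E h) (wM h) (IsFinSub (E h) (wM h) (Mdl.mk h G))
      (Mdl.mk h (sqN x)) := by
    refine isSeqOf_sqN x (P := fun h => IsFinSub (E h) (wM h) (Mdl.mk h G)) (by (repeat' first | exact BMap.id | apply BMap.fst | apply BMap.snd | exact BTerm.const _ | apply bterm_opair | apply BTerm.of | apply BPred.mem | apply BPred.eq | apply bp_has2 | apply bp_has3 | apply bp_has4 | apply bp_isTuple3 | apply bp_eq_pr | apply bp_isPair | apply bp_isUPair | apply bp_isFun | apply bp_injects | apply bp_leN | apply bp_sub | apply bp_isFin | apply bp_isTop | apply bp_isGrp | apply bp_isAbel | apply bp_isTopGrp | apply bp_isNbhd | apply bp_isFinSub | apply bp_inProd | apply bp_isSeqNb | apply bp_isSeqFs | apply bp_isOBdd | apply bp_isRestr | apply bp_isRule | apply bp_iWins | apply bp_isUMet | apply BPred.not | apply BPred.and | apply BPred.or | apply BPred.iff | apply BPred.imp | refine BPred.ex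 ?_ | refine BPred.all ?_ | exact BPred.const _)) ?_
    intro i h hc
    exact isFinSub_rfN (fun j => S.nam (d i j)) (hκn i) (fun j h hc => S.mem _ h hc) h hc
  obtain ⟨y, hy⟩ : ∃ y : BName B, ∀ h : Ult B, h.V c → (E h (Mdl.mk h y) (Mdl.mk h G) ∧
      ∀ n s U f, E h n (wM h) → IsRestr (E h) s (Mdl.mk h (sqN x)) n →
          Has (E h) (Mdl.mk h R) [s, U] → Has (E h) (Mdl.mk h (sqN x)) [n, f] →
            ¬ InProd (E h) (Mdl.mk h m) f U (Mdl.mk h y)) := by
    refine exists_wit (P := fun h y => (E h y (Mdl.mk h G) ∧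
      ∀ n s U f, E h n (wM h) → IsRestr (E h) s (Mdl.mk h (sqN x)) n →
          Has (E h) (Mdl.mk h R) [s, U] → Has (E h) (Mdl.mk h (sqN x)) [n, f] →
            ¬ InProd (E h) (Mdl.mk h m) f U y)) (by (repeat' first | exact BMap.id | apply BMap.fst | apply BMap.snd | exact BTerm.const _ | apply bterm_opair | apply BTerm.of | apply BPred.mem | apply BPred.eq | apply bp_has2 | apply bp_has3 | apply bp_has4 | apply bp_isTuple3 | apply bp_eq_pr | apply bp_isPair | apply bp_isUPair | apply bp_isFun | apply bp_injects | apply bp_leN | apply bp_sub | apply bp_isFin | apply bp_isTop | apply bp_isGrp | apply bp_isAbel | apply bp_isTopGrp | apply bp_isNbhd | apply bp_isFinSub | apply bp_inProd | apply bp_isSeqNb | apply bp_isSeqFs | apply bp_isOBdd | apply bp_isRestr | apply bp_isRule | apply bp_iWins | apply bp_isUMet | apply BPred.not | apply BPred.and | apply BPred.or | apply BPred.iff | apply BPred.imp | refine BPred.ex ?_ | refine BPred.all ?_ | exact BPred.const _)) ?_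
    intro h hc
    exact (hR h hc).2 _ (hF h hc)
  obtain ⟨g, hg⟩ := S.surj y fun h hc => (hy h hc).1
  refine ⟨g, ?_⟩
  have h1 : ∀ᶠ ω in genN B, ∀ n, Mdl.mk ω (x n) =
      Mdl.mk ω (fsN ((List.range (κ ω n)).map fun j => S.nam (d n j))) :=
    eventually_countable_forall.2 fun n => rfN_eq (fun j => S.nam (d n j)) (hκn n)
  filter_upwards [h1] with ω h1 hc n j hj hcon
  have h2 : IsRestr (E ω) (Mdl.mk ω (hsN S.nam (hist d (κ ω) n))) (Mdl.mk ω (sqN x)) (nM ω n) := by
    have h3 := isRestr_sgL x ((hist d (κ ω) n).map fun l => fsN (l.map S.nam)) ω ?_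
    · rw [List.length_map, length_hist] at h3
      exact h3
    · intro i hi
      rw [h1]
      congr 1
      simp [hist, Function.comp_def]
  refine (hy ω hc).2 (nM ω n) _ _ _ (E_nM ω n) h2 (((hσ _ ω hc).2 _).2 rfl)
    ((has_sqN x ω n _).2 rfl) ?_
  refine ⟨Mdl.mk ω (S.nam (d n j)), Mdl.mk ω (S.nam ((d n j)⁻¹ * g)), ?_, hcon, ?_⟩
  · rw [h1, E_fsN]
    exact ⟨_, List.mem_map.2 ⟨j, List.mem_range.2 hj, rfl⟩, rfl⟩
  · have h4 := S.mul (d n j) ((d n j)⁻¹ * g) ω hc
    rw [mul_inv_cancel_left, hg ω hc] at h4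
    exact h4

end Pool.Agent.MP_b00c97_gt.FO
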