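import Pool.Agent.MP_b00c97_gt.FO.Defs

/-! # MP_b00c97_gt, part FO, block FD: neighbourhoods in a topological group of the model -/

set_option autoImplicit false

namespace Pool.Agent.MP_b00c97_gt.FO

open Filter MeasureTheory Pool.Agent.BVM Pool.Agent.BVM.BName Pool.Agent.SetModel
  Pool.Agent.MP63050e Pool.Agent.MP7e7dde Pool.Agent.MP9096b7 Pool.Agent.MP_b00c97_gt.Mod
  Pool.Agent.MP_b00c97_gt.RN

universe u v

variable {B : Type} [CompleteBooleanAlgebra B]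

section

variable {h : Ult B} {G m e T : Mdl h} (HT : IsTopGrp (E h) G m e T)

include HT

/-- The intersection of two open neighbourhoods of the neutral element. -/
theorem top_open_inter {O O' : Mdl h} (hO : E h O T) (hO' : E h O' T) (he : E h e O)
    (he' : E h e O') :
    ∃ W, IsNbhd (E h) G e T W ∧ Sub (E h) W O ∧ Sub (E h) W O' := by
  obtain ⟨O, rfl⟩ := O.exists_rep
  obtain ⟨O', rfl⟩ := O'.exists_rep
  obtain ⟨W, hW⟩ := separation_name (H := fun h : Ult B => h)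
    (D := fun h z => E h z (Mdl.mk h O')) (BPred.mem BTerm.id (BTerm.const _)) O
  have hWT : E h (Mdl.mk h W) T := HT.2.1.2.2.1 _ _ _ hO hO' (hW h)
  exact ⟨Mdl.mk h W, ⟨HT.2.1.1 _ hWT, Mdl.mk h W, hWT, (hW h e).2 ⟨he, he'⟩, fun z hz => hz⟩,
    fun z hz => ((hW h z).1 hz).1, fun z hz => ((hW h z).1 hz).2⟩

theorem top_inter {u u' : Mdl h} (hu : IsNbhd (E h) G e T u) (hu' : IsNbhd (E h) G e T u') :
    ∃ u'', IsNbhd (E h) G e T u'' ∧ Sub (E h) u'' u ∧ Sub (E h) u'' u' := by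
  obtain ⟨-, O, hO, he, hOu⟩ := hu
  obtain ⟨-, O', hO', he', hOu'⟩ := hu'
  obtain ⟨W, hW, h1, h2⟩ := top_open_inter HT hO hO' he he'
  exact ⟨W, hW, fun z hz => hOu z (h1 z hz), fun z hz => hOu' z (h2 z hz)⟩

theorem top_mul {u : Mdl h} (hu : IsNbhd (E h) G e T u) :
    ∃ u', IsNbhd (E h) G e T u' ∧ ∀ a b z, E h a u' → E h b u' → Has (E h) m [a, b, z] →
      E h z u := by
  obtain ⟨-, O, hO, he, hOu⟩ := hu
  have heG : E h e G := HT.1.2.2.1
  obtain ⟨V, W, hV, hW, heV, heW, hVW⟩ := HT.2.2.1 e e e O heG heG (HT.1.2.2.2.1 e heG).1 hO he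
  obtain ⟨X, hX, h1, h2⟩ := top_open_inter HT hV hW heV heW
  exact ⟨X, hX, fun a b z ha hb hz => hOu z (hVW a b z (h1 a ha) (h2 b hb) hz)⟩

theorem top_inv {u : Mdl h} (hu : IsNbhd (E h) G e T u) :
    ∃ u', IsNbhd (E h) G e T u' ∧ ∀ a b, E h a u' → E h b G → Has (E h) m [a, b, e] →
      E h b u := by
  obtain ⟨-, O, hO, he, hOu⟩ := hu
  have heG : E h e G := HT.1.2.2.1
  obtain ⟨V, hV, heV, hVO⟩ := HT.2.2.2 e e O heG heG (HT.1.2.2.2.1 e heG).1 hO he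
  exact ⟨V, ⟨HT.2.1.1 _ hV, V, hV, heV, fun z hz => hz⟩,
    fun a b ha hb hab => hOu b (hVO a b ha hb hab)⟩

theorem top_conj {u d d' : Mdl h} (hu : IsNbhd (E h) G e T u) (hd : E h d G) (hd' : E h d' G)
    (hdd : Has (E h) m [d', d, e]) :
    ∃ u', IsNbhd (E h) G e T u' ∧ ∀ a s t, E h a u' → Has (E h) m [d', a, s] →
      Has (E h) m [s, d, t] → E h t u := by
  obtain ⟨-, O, hO, he, hOu⟩ := hu
  have heG : E h e G := HT.1.2.2.1
  obtain ⟨V, W, hV, hW, hdV, hdW, hVW⟩ := HT.2.2.1 d' d e O hd' hd hdd hO he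
  obtain ⟨V', W', hV', hW', hdV', heW', hVW'⟩ :=
    HT.2.2.1 d' e d' V hd' heG (HT.1.2.2.2.1 d' hd').2 hV hdV
  exact ⟨W', ⟨HT.2.1.1 _ hW', W', hW', heW', fun z hz => hz⟩,
    fun a s t ha hs ht => hOu t (hVW s d t (hVW' d' a s hdV' ha hs) hdW ht)⟩

end

end Pool.Agent.MP_b00c97_gt.FO
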