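import Pool.Agent.MP_b00c97_gt.FO.Grp
import Pool.Agent.MP_b00c97_gt.FO.Top
import Pool.Agent.MP_b00c97_gt.FO.Obd
import Pool.Agent.MP_b00c97_gt.FO.Strat

/-! # MP_b00c97_gt, part FO, block FG: assembly -/

set_option autoImplicit false

namespace Pool.Agent.MP_b00c97_gt.FO

open Filter MeasureTheory Pool.Agent.BVM Pool.Agent.BVM.BName Pool.Agent.SetModel
  Pool.Agent.MP63050e Pool.Agent.MP7e7dde Pool.Agent.MP9096b7 Pool.Agent.MP_b00c97_gt.Mod
  Pool.Agent.MP_b00c97_gt.RN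

universe u v

variable {B : Type} [CompleteBooleanAlgebra B]

theorem exists_rtg {G m e T : BName B} {c : B}
    (H : ∀ h : Ult B, h.V c → IsTopGrp (E h) (Mdl.mk h G) (Mdl.mk h m) (Mdl.mk h e) (Mdl.mk h T) ∧
      IsOBdd (E h) (wM h) (Mdl.mk h G) (Mdl.mk h m) (Mdl.mk h e) (Mdl.mk h T) ∧
      IWins (E h) (wM h) (Mdl.mk h G) (Mdl.mk h m) (Mdl.mk h e) (Mdl.mk h T)) :
    ∃ (Γ : Type 1) (_ : Group Γ), Nonempty (RTG.{1, 1} B c Γ) := by
  have HT : ∀ h : Ult B, h.V c →
      IsTopGrp (E h) (Mdl.mk h G) (Mdl.mk h m) (Mdl.mk h e) (Mdl.mk h T) := fun h hc => (H h hc).1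
  have HG : ∀ h : Ult B, h.V c → IsGrp (E h) (Mdl.mk h G) (Mdl.mk h m) (Mdl.mk h e) :=
    fun h hc => (HT h hc).1
  obtain ⟨Γ, _, ⟨S⟩⟩ := exists_GN G m e c HG
  obtain ⟨Z, hZ1, hZ2⟩ := S.exists_Z HG
  obtain ⟨σ, hσ1, hσ2⟩ := S.exists_strat HG (fun h hc => (H h hc).2.2)
  -- products of three elements
  have hmul : ∀ (g g' : Γ) {h : Ult B} (hc : h.V c),
      Has (E h) (Mdl.mk h m) [Mdl.mk h (S.nam g), Mdl.mk h (S.nam g'), Mdl.mk h (S.nam (g * g'))] :=
    fun g g' h hc => S.mul g g' h hc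
  refine ⟨Γ, inferInstance, ⟨{
    Z := Z
    Z_conj := hZ2
    mix := ?_
    N := {u : BName B // ∀ h : Ult B, h.V c →
      IsNbhd (E h) (Mdl.mk h G) (Mdl.mk h e) (Mdl.mk h T) (Mdl.mk h u)}
    U := fun n ω => {g | E ω (Mdl.mk ω (S.nam g)) (Mdl.mk ω n.1)}
    meas := ?_
    one_U := ?_
    U_Z := ?_
    inter_U := ?_
    mul_U := ?_
    inv_U := ?_
    conj_U := ?_
    obd := ?_
    σ := fun s => ⟨σ s, hσ1 s⟩
    win := ?_ }⟩⟩
  · -- mix
    intro ι b g hb
    obtain ⟨g', hg'⟩ := S.mix HG ι b g hb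
    refine ⟨g', fun i ω hi hc => (hZ1 ω hc _).2 ?_⟩
    exact (S.eq_iff HG (g i) g' hc).1 (hg' i ω hi hc).symm
  · -- meas
    intro n g
    have : {ω : Ult B | g ∈ {g | E ω (Mdl.mk ω (S.nam g)) (Mdl.mk ω n.1)}} =
        {ω | ω.V (bmem (S.nam g) n.1)} := by
      ext ω
      exact E_mk
    rw [this]
    exact meas_V _
  · -- one_U
    rintro ⟨u, hu⟩ ω hc
    change E ω (Mdl.mk ω (S.nam 1)) (Mdl.mk ω u)
    rw [S.one ω hc]
    obtain ⟨-, O, -, hO1, hO2⟩ := hu ω hc
    exact hO2 _ hO1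
  · -- U_Z
    rintro ⟨u, hu⟩ ω hc v hv z hz
    change E ω (Mdl.mk ω (S.nam (v * z))) (Mdl.mk ω u)
    have h1 := (hZ1 ω hc z).1 hz
    have h2 := (S.has_mul HG v z hc (Mdl.mk ω (S.nam v))).1 (by
      rw [h1]
      exact ((HG ω hc).2.2.2.1 _ (S.mem v ω hc)).2)
    rw [← h2]
    exact hv
  · -- inter_U
    rintro ⟨u, hu⟩ ⟨u', hu'⟩
    obtain ⟨z, hz⟩ := exists_wit (P := fun h z =>
        IsNbhd (E h) (Mdl.mk h G) (Mdl.mk h e) (Mdl.mk h T) z ∧ Sub (E h) z (Mdl.mk h u) ∧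
          Sub (E h) z (Mdl.mk h u')) (by (repeat' first | exact BMap.id | apply BMap.fst | apply BMap.snd | exact BTerm.const _ | apply bterm_opair | apply BTerm.of | apply BPred.mem | apply BPred.eq | apply bp_has2 | apply bp_has3 | apply bp_has4 | apply bp_isTuple3 | apply bp_eq_pr | apply bp_isPair | apply bp_isUPair | apply bp_isFun | apply bp_injects | apply bp_leN | apply bp_sub | apply bp_isFin | apply bp_isTop | apply bp_isGrp | apply bp_isAbel | apply bp_isTopGrp | apply bp_isNbhd | apply bp_isFinSub | apply bp_inProd | apply bp_isSeqNb | apply bp_isSeqFs | apply bp_isOBdd | apply bp_isRestr | apply bp_isRule | apply bp_iWins | apply bp_isUMet | apply BPred.not | apply BPred.and | apply BPred.or | apply BPred.iff | apply BPred.imp | refine BPred.ex ?_ | refine BPred.all ?_ | exact BPred.const _)) (Q := fun h => h.V c)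
      (fun h hc => top_inter (HT h hc) (hu h hc) (hu' h hc))
    refine ⟨⟨z, fun h hc => (hz h hc).1⟩, fun ω hc g hg => ⟨?_, ?_⟩⟩
    · exact (hz ω hc).2.1 (Mdl.mk ω (S.nam g)) hg
    · exact (hz ω hc).2.2 (Mdl.mk ω (S.nam g)) hg
  · -- mul_U
    rintro ⟨u, hu⟩
    obtain ⟨z, hz⟩ := exists_wit (P := fun h z =>
        IsNbhd (E h) (Mdl.mk h G) (Mdl.mk h e) (Mdl.mk h T) z ∧ ∀ a b t, E h a z → E h b z →
          Has (E h) (Mdl.mk h m) [a, b, t] → E h t (Mdl.mk h u)) (by (repeat' first | exact BMap.id | apply BMap.fst | apply BMap.snd | exact BTerm.const _ | apply bterm_opair | apply BTerm.of | apply BPred.mem | apply BPred.eq | apply bp_has2 | apply bp_has3 | apply bp_has4 | apply bp_isTuple3 | apply bp_eq_pr | apply bp_isPair | apply bp_isUPair | apply bp_isFun | apply bp_injects | apply bp_leN | apply bp_sub | apply bp_isFin | apply bp_isTop | apply bp_isGrp | apply bp_isAbel | apply bp_isTopGrp | apply bp_isNbhd | apply bp_isFinSub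 | apply bp_inProd | apply bp_isSeqNb | apply bp_isSeqFs | apply bp_isOBdd | apply bp_isRestr | apply bp_isRule | apply bp_iWins | apply bp_isUMet | apply BPred.not | apply BPred.and | apply BPred.or | apply BPred.iff | apply BPred.imp | refine BPred.ex ?_ | refine BPred.all ?_ | exact BPred.const _)) (Q := fun h => h.V c)
      (fun h hc => top_mul (HT h hc) (hu h hc))
    refine ⟨⟨z, fun h hc => (hz h hc).1⟩, fun ω hc a ha b hb => ?_⟩
    exact (hz ω hc).2 (Mdl.mk ω (S.nam a)) (Mdl.mk ω (S.nam b)) _ ha hb (S.mul a b ω hc)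
  · -- inv_U
    rintro ⟨u, hu⟩
    obtain ⟨z, hz⟩ := exists_wit (P := fun h z =>
        IsNbhd (E h) (Mdl.mk h G) (Mdl.mk h e) (Mdl.mk h T) z ∧ ∀ a b, E h a z →
          E h b (Mdl.mk h G) → Has (E h) (Mdl.mk h m) [a, b, Mdl.mk h e] → E h b (Mdl.mk h u))
        (by (repeat' first | exact BMap.id | apply BMap.fst | apply BMap.snd | exact BTerm.const _ | apply bterm_opair | apply BTerm.of | apply BPred.mem | apply BPred.eq | apply bp_has2 | apply bp_has3 | apply bp_has4 | apply bp_isTuple3 | apply bp_eq_pr | apply bp_isPair | apply bp_isUPair | apply bp_isFun | apply bp_injects | apply bp_leN | apply bp_sub | apply bp_isFin | apply bp_isTop | apply bp_isGrp | apply bp_isAbel | apply bp_isTopGrp | apply bp_isNbhd | apply bp_isFinSub | apply bp_inProd | apply bp_isSeqNb | apply bp_isSeqFs | apply bp_isOBdd | apply bp_isRestr | apply bp_isRule | apply bp_iWins | apply bp_isUMet | apply BPred.not | apply BPred.and | apply BPred.or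 | apply BPred.iff | apply BPred.imp | refine BPred.ex ?_ | refine BPred.all ?_ | exact BPred.const _)) (Q := fun h => h.V c)
      (fun h hc => top_inv (HT h hc) (hu h hc))
    refine ⟨⟨z, fun h hc => (hz h hc).1⟩, fun ω hc a ha => ?_⟩
    refine (hz ω hc).2 (Mdl.mk ω (S.nam a)) _ ha (S.mem a⁻¹ ω hc) ?_
    have := S.mul a a⁻¹ ω hc
    rwa [mul_inv_cancel, S.one ω hc] at this
  · -- conj_U
    rintro ⟨u, hu⟩ d
    have hdd : ∀ h : Ult B, h.V c → Has (E h) (Mdl.mk h m)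
        [Mdl.mk h (S.nam d⁻¹), Mdl.mk h (S.nam d), Mdl.mk h e] := by
      intro h hc
      have := S.mul d⁻¹ d h hc
      rwa [inv_mul_cancel, S.one h hc] at this
    obtain ⟨z, hz⟩ := exists_wit (P := fun h z =>
        IsNbhd (E h) (Mdl.mk h G) (Mdl.mk h e) (Mdl.mk h T) z ∧ ∀ a s t, E h a z →
          Has (E h) (Mdl.mk h m) [Mdl.mk h (S.nam d⁻¹), a, s] →
          Has (E h) (Mdl.mk h m) [s, Mdl.mk h (S.nam d), t] → E h t (Mdl.mk h u))
        (by (repeat' first | exact BMap.id | apply BMap.fst | apply BMap.snd | exact BTerm.const _ | apply bterm_opair | apply BTerm.of | apply BPred.mem | apply BPred.eq | apply bp_has2 | apply bp_has3 | apply bp_has4 | apply bp_isTuple3 | apply bp_eq_pr | apply bp_isPair | apply bp_isUPair | apply bp_isFun | apply bp_injects | apply bp_leN | apply bp_sub | apply bp_isFin | apply bp_isTop | apply bp_isGrp | apply bp_isAbel | apply bp_isTopGrp | apply bp_isNbhd | apply bp_isFinSub | apply bp_inProd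 | apply bp_isSeqNb | apply bp_isSeqFs | apply bp_isOBdd | apply bp_isRestr | apply bp_isRule | apply bp_iWins | apply bp_isUMet | apply BPred.not | apply BPred.and | apply BPred.or | apply BPred.iff | apply BPred.imp | refine BPred.ex ?_ | refine BPred.all ?_ | exact BPred.const _)) (Q := fun h => h.V c)
      (fun h hc => top_conj (HT h hc) (hu h hc) (S.mem d h hc) (S.mem d⁻¹ h hc) (hdd h hc))
    refine ⟨⟨z, fun h hc => (hz h hc).1⟩, fun ω hc a ha => ?_⟩
    exact (hz ω hc).2 (Mdl.mk ω (S.nam a)) _ _ ha (S.mul d⁻¹ a ω hc) (S.mul (d⁻¹ * a) d ω hc)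
  · -- obd
    intro n
    obtain ⟨d, κ, hκ, h1⟩ := S.exists_obd HG (fun h hc => (H h hc).2.1) (fun i => (n i).1)
      (fun i h hc => (n i).2 h hc)
    exact ⟨d, κ, hκ, h1⟩
  · -- win
    intro d κ hκ
    obtain ⟨g, hg⟩ := hσ2 d κ hκ
    exact ⟨g, hg⟩

theorem q1No_of (H : ∀ (c : B) (Γ : Type 1) (_ : Group Γ), c ≠ ⊥ → RTG.{1, 1} B c Γ → False)
    (h : Ult B) : Q1No (E h) := by
  intro w G m e T hw hT ho hI
  obtain rfl := omega_eq hw
  obtain ⟨G, rfl⟩ := G.exists_rep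
  obtain ⟨m, rfl⟩ := m.exists_rep
  obtain ⟨e, rfl⟩ := e.exists_rep
  obtain ⟨T, rfl⟩ := T.exists_rep
  have hcl : Clop (fun h : Ult B =>
      IsTopGrp (E h) (Mdl.mk h G) (Mdl.mk h m) (Mdl.mk h e) (Mdl.mk h T) ∧
      IsOBdd (E h) (wM h) (Mdl.mk h G) (Mdl.mk h m) (Mdl.mk h e) (Mdl.mk h T) ∧
      IWins (E h) (wM h) (Mdl.mk h G) (Mdl.mk h m) (Mdl.mk h e) (Mdl.mk h T)) := by
    refine BPred.clop (P := fun h (_ : PUnit.{1}) =>
      IsTopGrp (E h) (Mdl.mk h G) (Mdl.mk h m) (Mdl.mk h e) (Mdl.mk h T) ∧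
      IsOBdd (E h) (wM h) (Mdl.mk h G) (Mdl.mk h m) (Mdl.mk h e) (Mdl.mk h T) ∧
      IWins (E h) (wM h) (Mdl.mk h G) (Mdl.mk h m) (Mdl.mk h e) (Mdl.mk h T)) ?_ PUnit.unit
    (repeat' first | exact BMap.id | apply BMap.fst | apply BMap.snd | exact BTerm.const _ | apply bterm_opair | apply BTerm.of | apply BPred.mem | apply BPred.eq | apply bp_has2 | apply bp_has3 | apply bp_has4 | apply bp_isTuple3 | apply bp_eq_pr | apply bp_isPair | apply bp_isUPair | apply bp_isFun | apply bp_injects | apply bp_leN | apply bp_sub | apply bp_isFin | apply bp_isTop | apply bp_isGrp | apply bp_isAbel | apply bp_isTopGrp | apply bp_isNbhd | apply bp_isFinSub | apply bp_inProd | apply bp_isSeqNb | apply bp_isSeqFs | apply bp_isOBdd | apply bp_isRestr | apply bp_isRule | apply bp_iWins | apply bp_isUMet | apply BPred.not | apply BPred.and | apply BPred.or | apply BPred.iff | apply BPred.imp | refine BPred.ex ?_ | refine BPred.all ?_ | exact BPred.const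 _)
  obtain ⟨c, hc⟩ := hcl
  have hV : h.V c := (hc h).1 ⟨hT, ho, hI⟩
  obtain ⟨Γ, iΓ, ⟨R⟩⟩ := exists_rtg (G := G) (m := m) (e := e) (T := T) (c := c)
    (fun h' hh => (hc h').2 hh)
  exact H c Γ iΓ (h.ne_bot hV) R

end Pool.Agent.MP_b00c97_gt.FO
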